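import Pool.Agent.N90.AC.Betti
import Mathlib.LinearAlgebra.Projection

/-!
# The Betti numbers and the orders of the poles are additive
-/

set_option autoImplicit false

open CategoryTheory MonoidalCategory Limits Polynomial

universe w v u

namespace Pool.Agent.N90.AC

variable {K : Type w} [Field K] [CharZero K] {A : Type u} [Category.{v} A] [Abelian A] [Linear ℚ A]
  [MonoidalCategory A] [BraidedCategory A] [RightRigidCategory A]
  {q : ℕ} (𝓜 : Motives K A q)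

attribute [local instance] Motives.additive Motives.finite

/-- a polynomial with rational coefficients in the Frobenius endomorphism of the cohomology -/
noncomputable def ev (M : A) (j : ℤ) : ℚ[X] →+* Module.End K ((𝓜.H j).obj M) :=
  (aeval (R := K) (phi 𝓜 M j)).toRingHom.comp (mapRingHom (algebraMap ℚ K))

theorem ev_eq (M : A) (j : ℤ) (P : ℚ[X]) :
    ev 𝓜 M j P = ((𝓜.H j).map (𝓜.frobPoly M P)).hom := (rho_PF 𝓜 M j P).symm

theorem subsingleton_of_betti {M : A} {j : ℤ} (h : 𝓜.betti M j = 0) :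
    Subsingleton ((𝓜.H j).obj M) :=
  Module.finrank_zero_iff.1 h

/-- the alternating sum of the traces of `P(Fr)` on the cohomology groups -/
noncomputable def st (M : A) (P : ℚ[X]) : K :=
  ∑ᶠ j : ℤ, (-1) ^ j * LinearMap.trace K _ (ev 𝓜 M j P)

theorem st_eq {M : A} {P : ℚ[X]} {c : ℚ} (h : tr (𝓜.frobPoly M P) = c • 𝟙 (𝟙_ A)) :
    (c : K) = st 𝓜 M P := by
  rw [𝓜.trace_formula _ c h]
  unfold st
  refine finsum_congr fun j => ?_
  rw [ev_eq]

theorem st_exact [MonoidalPreadditive A] {L M Q : A} (i : L ⟶ M) (p : M ⟶ Q) [Mono i] [Epi p]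
    (w : i ≫ p = 0) (hex : (ShortComplex.mk i p w).Exact) (P : ℚ[X]) :
    st 𝓜 M P = st 𝓜 L P + st 𝓜 Q P := by
  obtain ⟨a, ha⟩ := 𝓜.unit_end (tr (𝓜.frobPoly L P))
  obtain ⟨b, hb⟩ := 𝓜.unit_end (tr (𝓜.frobPoly Q P))
  have h1 : tr (𝓜.frobPoly M P) = (a + b) • 𝟙 (𝟙_ A) := by
    rw [add_smul, ← ha, ← hb]
    exact tr_exact i p w hex _ _ _ (PF_natural 𝓜 i P).symm (PF_natural 𝓜 p P)
  rw [← st_eq 𝓜 h1, ← st_eq 𝓜 ha, ← st_eq 𝓜 hb]
  push_cast
  rfl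

theorem st_single {M : A} {P : ℚ[X]} {i : ℤ} (h : ∀ j, j ≠ i → ev 𝓜 M j P = 0) :
    st 𝓜 M P = (-1) ^ i * LinearMap.trace K _ (ev 𝓜 M i P) := by
  unfold st
  refine finsum_eq_single _ i fun j hj => ?_
  rw [h j hj, map_zero, mul_zero]

/-- the characteristic polynomial -/
noncomputable def cp (M : A) (j : ℤ) : ℚ[X] := (𝓜.weil M j).choose

theorem cp_map (M : A) (j : ℤ) :
    (phi 𝓜 M j).charpoly = (cp 𝓜 M j).map (algebraMap ℚ K) := (𝓜.weil M j).choose_spec.1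

theorem cp_weil {M : A} {j : ℤ} {z : ℂ} (h : aeval z (cp 𝓜 M j) = 0) :
    ‖z‖ ^ 2 = (q : ℝ) ^ j := (𝓜.weil M j).choose_spec.2 z h

theorem ev_cp (M : A) (j : ℤ) : ev 𝓜 M j (cp 𝓜 M j) = 0 := by
  change aeval (phi 𝓜 M j) ((cp 𝓜 M j).map (algebraMap ℚ K)) = 0
  rw [← cp_map]
  exact LinearMap.aeval_self_charpoly _

theorem cp_ne_zero (M : A) (j : ℤ) : cp 𝓜 M j ≠ 0 := by
  intro h
  have h1 := cp_map 𝓜 M j
  rw [h, Polynomial.map_zero] at h1
  exact (LinearMap.charpoly_monic _).ne_zero h1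

theorem coprime_cp (hq : 1 < q) (M N : A) {i j : ℤ} (h : i ≠ j) :
    IsCoprime (cp 𝓜 M i) (cp 𝓜 N j) := by
  rw [Polynomial.isCoprime_iff_aeval_ne_zero_of_isAlgClosed ℚ ℂ]
  intro z
  by_contra hcon
  push Not at hcon
  have h1 := cp_weil 𝓜 hcon.1
  rw [cp_weil 𝓜 hcon.2] at h1
  have hq' : (1 : ℝ) < q := by exact_mod_cast hq
  exact h (zpow_right_injective₀ (by linarith) hq'.ne' h1).symm

theorem exists_idem (hq : 1 < q) {ι : Type} [Fintype ι] (Y : ι → A) (i : ℤ) :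
    ∃ E : ℚ[X], ∀ k, ev 𝓜 (Y k) i E = 1 ∧ ∀ j, j ≠ i → ev 𝓜 (Y k) j E = 0 := by
  classical
  have hfin : (⋃ k, {j : ℤ | 𝓜.betti (Y k) j ≠ 0}).Finite :=
    Set.finite_iUnion fun k => 𝓜.bounded (Y k)
  let T := hfin.toFinset
  let W : ℤ → ℚ[X] := fun j => ∏ k, cp 𝓜 (Y k) j
  have hW : ∀ k j, ev 𝓜 (Y k) j (W j) = 0 := by
    intro k j
    have h1 : cp 𝓜 (Y k) j ∣ W j := Finset.dvd_prod_of_mem _ (Finset.mem_univ k)
    obtain ⟨R, hR⟩ := h1
    rw [hR, map_mul, ev_cp, zero_mul]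
  have hco : IsCoprime (W i) (∏ j ∈ T.erase i, W j) := by
    refine IsCoprime.prod_right fun j hj => ?_
    refine IsCoprime.prod_left fun k _ => IsCoprime.prod_right fun k' _ => ?_
    exact coprime_cp 𝓜 hq _ _ (Finset.ne_of_mem_erase hj).symm
  obtain ⟨a, b, hab⟩ := hco
  refine ⟨b * ∏ j ∈ T.erase i, W j, fun k => ⟨?_, fun j hj => ?_⟩⟩
  · have h1 : b * ∏ j ∈ T.erase i, W j = 1 - a * W i := by
      rw [← hab]
      ring
    rw [h1, map_sub, map_mul, hW, mul_zero, map_one, sub_zero]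
  · by_cases hjT : j ∈ T
    · have h1 : W j ∣ ∏ j ∈ T.erase i, W j :=
        Finset.dvd_prod_of_mem _ (Finset.mem_erase.2 ⟨hj, hjT⟩)
      obtain ⟨R, hR⟩ := h1
      rw [hR, map_mul, map_mul, hW, zero_mul, mul_zero]
    · have h1 : 𝓜.betti (Y k) j = 0 := by
        by_contra hne
        exact hjT (hfin.mem_toFinset.2 (Set.mem_iUnion.2 ⟨k, hne⟩))
      have := subsingleton_of_betti 𝓜 h1
      exact Subsingleton.elim _ _


/-- **The Betti numbers are additive.** -/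
theorem betti_exact [MonoidalPreadditive A] (hq : 1 < q) {L M Q : A} (i : L ⟶ M) (p : M ⟶ Q)
    [Mono i] [Epi p] (w : i ≫ p = 0) (hex : (ShortComplex.mk i p w).Exact) (n : ℤ) :
    𝓜.betti M n = 𝓜.betti L n + 𝓜.betti Q n := by
  obtain ⟨E, hE⟩ := exists_idem 𝓜 hq ![L, M, Q] n
  have hL : ev 𝓜 L n E = 1 ∧ ∀ j, j ≠ n → ev 𝓜 L j E = 0 := hE 0
  have hM : ev 𝓜 M n E = 1 ∧ ∀ j, j ≠ n → ev 𝓜 M j E = 0 := hE 1
  have hQ : ev 𝓜 Q n E = 1 ∧ ∀ j, j ≠ n → ev 𝓜 Q j E = 0 := hE 2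
  have h1 := st_exact 𝓜 i p w hex E
  rw [st_single 𝓜 hL.2, st_single 𝓜 hM.2, st_single 𝓜 hQ.2, hL.1, hM.1, hQ.1,
    LinearMap.trace_one, LinearMap.trace_one, LinearMap.trace_one, ← mul_add] at h1
  have h2 : ((-1 : K) ^ n) ≠ 0 := zpow_ne_zero _ (by norm_num)
  have h3 := mul_left_cancel₀ h2 h1
  unfold Motives.betti
  exact_mod_cast h3

theorem cp_one_ne (hq : 1 < q) {M : A} {j : ℤ} (hj : j ≠ 0) : (cp 𝓜 M j).eval 1 ≠ 0 := by
  intro h
  have h1 : aeval (1 : ℂ) (cp 𝓜 M j) = 0 := by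
    have h2 : aeval (algebraMap ℚ ℂ 1) (cp 𝓜 M j) = algebraMap ℚ ℂ ((cp 𝓜 M j).eval 1) :=
      aeval_algebraMap_apply_eq_algebraMap_eval 1 _
    rw [h, map_one, map_zero] at h2
    exact h2
  have h2 := cp_weil 𝓜 h1
  have hq' : (1 : ℝ) < q := by exact_mod_cast hq
  rw [norm_one, one_pow, ← zpow_zero (q : ℝ)] at h2
  exact hj (zpow_right_injective₀ (by linarith) hq'.ne' h2).symm

theorem trace_pole {V : Type*} [AddCommGroup V] [Module K V] [Module.Finite K V]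
    (f : ℚ[X] →+* Module.End K V) {u v B : ℚ[X]} {a : ℕ}
    (h1 : u * (X - C (1 : ℚ)) ^ a + v * B = 1) (hB : IsCoprime (X - C (1 : ℚ)) B)
    (h2 : f ((X - C (1 : ℚ)) ^ a * B) = 0) :
    LinearMap.trace K V (f (v * B)) = (Module.finrank K (Module.End.maxGenEigenspace (f X) 1) : K) := by
  have hX : f (X - C (1 : ℚ)) = f X - (1 : K) • 1 := by
    rw [map_sub, map_one, map_one, one_smul]
  have hproj : LinearMap.IsProj (Module.End.maxGenEigenspace (f X) 1) (f (v * B)) := by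
    constructor
    · intro x
      rw [Module.End.mem_maxGenEigenspace]
      refine ⟨a, ?_⟩
      rw [← hX, ← map_pow, ← Module.End.mul_apply, ← map_mul,
        show (X - C (1 : ℚ)) ^ a * (v * B) = v * ((X - C (1 : ℚ)) ^ a * B) by ring, map_mul, h2,
        mul_zero, LinearMap.zero_apply]
    · intro x hx
      rw [Module.End.mem_maxGenEigenspace] at hx
      obtain ⟨k, hk⟩ := hx
      rw [← hX, ← map_pow] at hk
      obtain ⟨c, d, hcd⟩ := (hB.pow_left (m := k))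
      have h3 : f ((X - C (1 : ℚ)) ^ a) x = 0 := by
        have h4 : (X - C (1 : ℚ)) ^ a = (c * (X - C (1 : ℚ)) ^ a) * (X - C (1 : ℚ)) ^ k +
            d * ((X - C (1 : ℚ)) ^ a * B) := by
          linear_combination (-(X - C (1 : ℚ)) ^ a) * hcd
        rw [h4, map_add, map_mul _ (c * _), map_mul _ d, h2, mul_zero, add_zero,
          Module.End.mul_apply, hk, map_zero]
      have h5 : v * B = 1 - u * (X - C (1 : ℚ)) ^ a := by
        rw [← h1]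
        ring
      rw [h5, map_sub, map_one, map_mul, LinearMap.sub_apply, Module.End.mul_apply, h3, map_zero,
        sub_zero, Module.End.one_apply]
  exact hproj.trace

theorem exists_pole (hq : 1 < q) {ι : Type} [Fintype ι] (Y : ι → A) :
    ∃ E : ℚ[X], ∀ k, LinearMap.trace K _ (ev 𝓜 (Y k) 0 E) = (𝓜.poleOrder (Y k) : K) ∧
      ∀ j, j ≠ 0 → ev 𝓜 (Y k) j E = 0 := by
  classical
  have hfin : (⋃ k, {j : ℤ | 𝓜.betti (Y k) j ≠ 0}).Finite :=
    Set.finite_iUnion fun k => 𝓜.bounded (Y k)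
  let T := hfin.toFinset
  let W : ℤ → ℚ[X] := fun j => ∏ k, cp 𝓜 (Y k) j
  have hWd : ∀ k j, cp 𝓜 (Y k) j ∣ W j := fun k j => Finset.dvd_prod_of_mem _ (Finset.mem_univ k)
  have hW : ∀ k j, ev 𝓜 (Y k) j (W j) = 0 := by
    intro k j
    obtain ⟨R, hR⟩ := hWd k j
    rw [hR, map_mul, ev_cp, zero_mul]
  have hW0 : W 0 ≠ 0 := Finset.prod_ne_zero_iff.2 fun k _ => cp_ne_zero 𝓜 _ _
  obtain ⟨R, hR, hR1⟩ := exists_eq_pow_rootMultiplicity_mul_and_not_dvd (W 0) hW0 1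
  set a := rootMultiplicity 1 (W 0) with ha
  have hR2 : R.eval 1 ≠ 0 := fun h => hR1 (dvd_iff_isRoot.2 h)
  let B : ℚ[X] := R * ∏ j ∈ T.erase 0, W j
  have hB : IsCoprime (X - C (1 : ℚ)) B := by
    rw [(irreducible_X_sub_C (1 : ℚ)).coprime_iff_not_dvd, dvd_iff_isRoot]
    intro h
    have h1 : B.eval 1 = 0 := h
    simp only [B, W, eval_mul, eval_prod] at h1
    rcases mul_eq_zero.1 h1 with h1 | h1
    · exact hR2 h1
    · obtain ⟨j, hj, hj0⟩ := Finset.prod_eq_zero_iff.1 h1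
      obtain ⟨k, _, hk⟩ := Finset.prod_eq_zero_iff.1 hj0
      exact cp_one_ne 𝓜 hq (Finset.ne_of_mem_erase hj) hk
  obtain ⟨u, v, huv⟩ := hB.pow_left (m := a)
  refine ⟨v * B, fun k => ⟨?_, fun j hj => ?_⟩⟩
  · have h1 : ev 𝓜 (Y k) 0 X = phi 𝓜 (Y k) 0 := by
      change aeval (phi 𝓜 (Y k) 0) ((X : ℚ[X]).map (algebraMap ℚ K)) = _
      rw [Polynomial.map_X, aeval_X]
    rw [trace_pole (ev 𝓜 (Y k) 0) huv hB, h1]
    · rfl
    · have h2 : (X - C (1 : ℚ)) ^ a * B = W 0 * ∏ j ∈ T.erase 0, W j := by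
        rw [hR]
        ring
      rw [h2, map_mul, hW, zero_mul]
  · by_cases hjT : j ∈ T
    · have h1 : W j ∣ ∏ j ∈ T.erase 0, W j :=
        Finset.dvd_prod_of_mem _ (Finset.mem_erase.2 ⟨hj, hjT⟩)
      obtain ⟨S, hS⟩ := h1
      simp only [B]
      rw [hS, map_mul, map_mul, map_mul, hW, zero_mul, mul_zero, mul_zero]
    · have h1 : 𝓜.betti (Y k) j = 0 := by
        by_contra hne
        exact hjT (hfin.mem_toFinset.2 (Set.mem_iUnion.2 ⟨k, hne⟩))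
      have := subsingleton_of_betti 𝓜 h1
      exact Subsingleton.elim _ _

/-- **The orders of the poles are additive.** -/
theorem pole_exact [MonoidalPreadditive A] (hq : 1 < q) {L M Q : A} (i : L ⟶ M) (p : M ⟶ Q)
    [Mono i] [Epi p] (w : i ≫ p = 0) (hex : (ShortComplex.mk i p w).Exact) :
    𝓜.poleOrder M = 𝓜.poleOrder L + 𝓜.poleOrder Q := by
  obtain ⟨E, hE⟩ := exists_pole 𝓜 hq ![L, M, Q]
  have hL : LinearMap.trace K _ (ev 𝓜 L 0 E) = (𝓜.poleOrder L : K) ∧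
    ∀ j, j ≠ 0 → ev 𝓜 L j E = 0 := hE 0
  have hM : LinearMap.trace K _ (ev 𝓜 M 0 E) = (𝓜.poleOrder M : K) ∧
    ∀ j, j ≠ 0 → ev 𝓜 M j E = 0 := hE 1
  have hQ : LinearMap.trace K _ (ev 𝓜 Q 0 E) = (𝓜.poleOrder Q : K) ∧
    ∀ j, j ≠ 0 → ev 𝓜 Q j E = 0 := hE 2
  have h1 := st_exact 𝓜 i p w hex E
  rw [st_single 𝓜 hL.2, st_single 𝓜 hM.2, st_single 𝓜 hQ.2, hL.1, hM.1, hQ.1, zpow_zero,
    one_mul, one_mul, one_mul] at h1
  exact_mod_cast h1

theorem total_exact [MonoidalPreadditive A] (hq : 1 < q) {L M Q : A} (i : L ⟶ M) (p : M ⟶ Q)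
    [Mono i] [Epi p] (w : i ≫ p = 0) (hex : (ShortComplex.mk i p w).Exact) :
    𝓜.totalBetti M = 𝓜.totalBetti L + 𝓜.totalBetti Q := by
  unfold Motives.totalBetti
  have h1 := finsum_add_distrib (f := 𝓜.betti L) (g := 𝓜.betti Q) (𝓜.bounded L) (𝓜.bounded Q)
  rw [← h1]
  exact finsum_congr fun n => betti_exact 𝓜 hq i p w hex n

theorem total_eq_zero {M : A} : 𝓜.totalBetti M = 0 ↔ ∀ n, 𝓜.betti M n = 0 := by
  unfold Motives.totalBetti
  constructor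
  · intro h n
    by_contra hn
    have h1 : 𝓜.betti M n ≤ ∑ᶠ i, 𝓜.betti M i := single_le_finsum n (𝓜.bounded M) fun _ => Nat.zero_le _
    omega
  · intro h
    simp [h]

end Pool.Agent.N90.AC
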