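import Pool.Agent.N90.AC.Defs
import Mathlib.FieldTheory.IsAlgClosed.Basic
import Mathlib.Analysis.Complex.Polynomial.Basic

/-!
# The Betti numbers are additive
-/

set_option autoImplicit false

open CategoryTheory MonoidalCategory Limits Polynomial

universe w v u

namespace Pool.Agent.N90.AC

variable {K : Type w} [Field K] [CharZero K] {A : Type u} [Category.{v} A] [Abelian A] [Linear ℚ A]
  [MonoidalCategory A] [BraidedCategory A] [RightRigidCategory A]
  {q : ℕ} (𝓜 : Motives K A q)

attribute [local instance] Motives.additive Motives.finite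

/-- the action on the cohomology -/
noncomputable def rho (M : A) (i : ℤ) : End M →+* Module.End K ((𝓜.H i).obj M) where
  toFun f := ((𝓜.H i).map f).hom
  map_one' := by
    rw [End.one_def, CategoryTheory.Functor.map_id]
    rfl
  map_mul' f g := by
    rw [End.mul_def, CategoryTheory.Functor.map_comp]
    rfl
  map_zero' := by
    rw [Functor.map_zero]
    rfl
  map_add' f g := by
    rw [Functor.map_add]
    rfl

/-- the Frobenius endomorphism of the cohomology -/
noncomputable def phi (M : A) (i : ℤ) : Module.End K ((𝓜.H i).obj M) :=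
  ((𝓜.H i).map (𝓜.Fr M)).hom

theorem rho_PF (M : A) (i : ℤ) (P : ℚ[X]) :
    ((𝓜.H i).map (𝓜.frobPoly M P)).hom = aeval (phi 𝓜 M i) (P.map (algebraMap ℚ K)) := by
  change rho 𝓜 M i (aeval (R := ℚ) (A := End M) (𝓜.Fr M : End M) P) = _
  induction P using Polynomial.induction_on' with
  | add p q hp hq => simp only [map_add, Polynomial.map_add, hp, hq]
  | monomial n c =>
    rw [aeval_monomial, Polynomial.map_monomial, aeval_monomial, map_mul, map_pow]
    congr 1
    rw [Algebra.algebraMap_eq_smul_one, Algebra.algebraMap_eq_smul_one]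
    have h1 := map_ratCast_smul (rho 𝓜 M i).toAddMonoidHom ℚ K c (1 : End M)
    simp only [RingHom.toAddMonoidHom_eq_coe, AddMonoidHom.coe_coe, map_one, Rat.cast_id] at h1
    rw [h1]
    rfl

theorem PF_natural {M N : A} (f : M ⟶ N) (P : ℚ[X]) : 𝓜.frobPoly M P ≫ f = f ≫ 𝓜.frobPoly N P := by
  unfold Motives.frobPoly
  induction P using Polynomial.induction_on with
  | C a =>
    rw [aeval_C, aeval_C, Algebra.algebraMap_eq_smul_one, Algebra.algebraMap_eq_smul_one]
    change (a • 𝟙 M) ≫ f = f ≫ (a • 𝟙 N)
    rw [Linear.smul_comp, Linear.comp_smul, Category.id_comp, Category.comp_id]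
  | add p q hp hq =>
    rw [map_add, map_add]
    change (_ + _) ≫ f = f ≫ (_ + _)
    rw [Preadditive.add_comp, Preadditive.comp_add, hp, hq]
  | monomial n a h =>
    rw [pow_succ, ← mul_assoc, map_mul _ _ X, map_mul _ _ X, aeval_X, aeval_X]
    rw [End.mul_def, End.mul_def, Category.assoc, h, ← Category.assoc, 𝓜.natural, Category.assoc]

end Pool.Agent.N90.AC
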