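import Pool.Agent.N90.AC.Nil
import Mathlib.RingTheory.Coprime.Lemmas

/-!
# Chow–Künneth projectors
-/

set_option autoImplicit false

open CategoryTheory MonoidalCategory Limits

universe w v u

namespace Pool.Agent.N90.AC

variable {K : Type w} [Field K] [CharZero K] {A : Type u} [Category.{v} A] [Abelian A] [Linear ℚ A]
  [MonoidalCategory A] [MonoidalPreadditive A] [BraidedCategory A] [RightRigidCategory A]
  {q : ℕ} (𝓜 : Motives K A q)

attribute [local instance] Motives.additive Motives.finite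

theorem map_PF (M : A) (j : ℤ) (P : Polynomial ℚ) :
    (𝓜.H j).map (𝓜.frobPoly M P) = ModuleCat.ofHom (ev 𝓜 M j P) := by
  rw [ev_eq]
  rfl

theorem PF_mul (M : A) (P Q : Polynomial ℚ) : 𝓜.frobPoly M P ≫ 𝓜.frobPoly M Q = 𝓜.frobPoly M (P * Q) := by
  unfold Motives.frobPoly
  rw [mul_comm, map_mul, End.mul_def]

theorem PF_one (M : A) : 𝓜.frobPoly M 1 = 𝟙 M := by
  unfold Motives.frobPoly
  rw [map_one]
  rfl

theorem PF_sub (M : A) (P Q : Polynomial ℚ) : 𝓜.frobPoly M (P - Q) = 𝓜.frobPoly M P - 𝓜.frobPoly M Q := by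
  unfold Motives.frobPoly
  rw [map_sub]

theorem PF_sum (M : A) (s : Finset ℤ) (e : ℤ → Polynomial ℚ) :
    𝓜.frobPoly M (∑ i ∈ s, e i) = ∑ i ∈ s, 𝓜.frobPoly M (e i) := by
  unfold Motives.frobPoly
  rw [map_sum]

theorem PF_pow (M : A) (P : Polynomial ℚ) (n : ℕ) :
    (𝓜.frobPoly M (P ^ n) : End M) = HPow.hPow (α := End M) (β := ℕ) (γ := End M) (𝓜.frobPoly M P) n := by
  unfold Motives.frobPoly
  rw [map_pow]

/-- **Chow–Künneth projectors** -/
theorem chow_kunneth (hq : 1 < q) (M : A) : ∃ (s : Finset ℤ) (e : ℤ → Polynomial ℚ),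
    (∀ i ∈ s, ∀ j ∈ s, 𝓜.frobPoly M (e i) ≫ 𝓜.frobPoly M (e j) = if i = j then 𝓜.frobPoly M (e i) else 0) ∧
    ∑ i ∈ s, 𝓜.frobPoly M (e i) = 𝟙 M ∧
    ∀ i ∈ s, ∀ j, (𝓜.H j).map (𝓜.frobPoly M (e i)) = if i = j then 𝟙 _ else 0 := by
  classical
  let T := (𝓜.bounded M).toFinset
  have hT : ∀ j, j ∉ T → 𝓜.betti M j = 0 := by
    intro j hj
    by_contra hne
    exact hj ((𝓜.bounded M).mem_toFinset.2 hne)
  let n := 𝓜.totalBetti M
  let N : Polynomial ℚ := ∏ i ∈ T, cp 𝓜 M i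
  let Q : ℤ → Polynomial ℚ := fun i => cp 𝓜 M i ^ (n + 1)
  have hN : 𝓜.frobPoly M (N ^ n) = 0 := by
    rw [PF_pow]
    refine nilpotent_hom 𝓜 hq (M := M) (𝓜.frobPoly M N) fun j => ?_
    rw [map_PF]
    have h1 : ev 𝓜 M j N = 0 := by
      by_cases hj : j ∈ T
      · obtain ⟨R, hR⟩ := Finset.dvd_prod_of_mem (cp 𝓜 M) hj
        simp only [N]
        rw [hR, map_mul, ev_cp, zero_mul]
      · have := subsingleton_of_betti 𝓜 (hT j hj)
        exact Subsingleton.elim _ _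
    rw [h1]
    rfl
  have hQco : ∀ i j, i ≠ j → IsCoprime (Q i) (Q j) := fun i j hij =>
    (coprime_cp 𝓜 hq M M hij).pow
  have hdvd : ∀ D : Polynomial ℚ, (∀ l ∈ T, Q l ∣ D) → 𝓜.frobPoly M D = 0 := by
    intro D hD
    have h1 : (∏ l ∈ T, Q l) ∣ D :=
      Finset.prod_dvd_of_coprime (fun i _ j _ hij => hQco i j hij) hD
    have h2 : (∏ l ∈ T, Q l) = N ^ n * N := by
      simp only [Q, N]
      rw [Finset.prod_pow, pow_succ]
    obtain ⟨R, hR⟩ := h1
    rw [hR, h2, mul_assoc, ← PF_mul, hN, zero_comp]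
  have hev : ∀ j, ev 𝓜 M j (Q j) = 0 := by
    intro j
    simp only [Q]
    rw [map_pow, ev_cp, zero_pow (Nat.succ_ne_zero _)]
  have hex : ∀ i, ∃ e : Polynomial ℚ, Q i ∣ 1 - e ∧ ∀ j ∈ T, j ≠ i → Q j ∣ e := by
    intro i
    have h1 : IsCoprime (Q i) (∏ j ∈ T.erase i, Q j) :=
      IsCoprime.prod_right fun j hj => hQco i j (Finset.ne_of_mem_erase hj).symm
    obtain ⟨a, b, hab⟩ := h1
    refine ⟨b * ∏ j ∈ T.erase i, Q j, ⟨a, ?_⟩, fun j hj hji => ?_⟩
    · rw [← hab]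
      ring
    · exact (Finset.dvd_prod_of_mem _ (Finset.mem_erase.2 ⟨hji, hj⟩)).mul_left _
  choose e he1 he2 using hex
  refine ⟨T, e, fun i hi j hj => ?_, ?_, fun i hi j => ?_⟩
  · rw [PF_mul]
    split_ifs with hij
    · subst hij
      rw [← sub_eq_zero, ← PF_sub]
      refine hdvd _ fun l hl => ?_
      have h1 : e i * e i - e i = -(e i * (1 - e i)) := by ring
      rw [h1, dvd_neg]
      by_cases hli : l = i
      · subst hli
        exact (he1 l).mul_left _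
      · exact (he2 i l hl hli).mul_right _
    · refine hdvd _ fun l hl => ?_
      by_cases hli : l = i
      · subst hli
        exact (he2 j l hl hij).mul_left _
      · exact (he2 i l hl hli).mul_right _
  · rw [← PF_sum, ← PF_one 𝓜 M, ← sub_eq_zero, ← PF_sub]
    refine hdvd _ fun l hl => ?_
    rw [← Finset.add_sum_erase T e hl]
    have h1 : e l + ∑ x ∈ T.erase l, e x - 1 = -(1 - e l) + ∑ x ∈ T.erase l, e x := by ring
    rw [h1]
    refine dvd_add ((dvd_neg).2 (he1 l)) (Finset.dvd_sum fun x hx => ?_)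
    exact he2 x l hl (Finset.ne_of_mem_erase hx).symm
  · rw [map_PF]
    split_ifs with hij
    · subst hij
      obtain ⟨R, hR⟩ := he1 i
      have h1 : e i = 1 - Q i * R := by
        rw [← hR]
        ring
      rw [h1, map_sub, map_mul, hev, zero_mul, map_one, sub_zero]
      rfl
    · by_cases hj : j ∈ T
      · obtain ⟨R, hR⟩ := he2 i j hj (Ne.symm hij)
        rw [hR, map_mul, hev, zero_mul]
        rfl
      · have h2 := subsingleton_of_betti 𝓜 (hT j hj)
        have h3 : ev 𝓜 M j (e i) = 0 := Subsingleton.elim _ _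
        rw [h3]
        rfl

end Pool.Agent.N90.AC
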