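import Pool.Agent.N90.AC.Add
import Mathlib.CategoryTheory.Abelian.Exact

/-!
# The cohomology is conservative
-/

set_option autoImplicit false

open CategoryTheory MonoidalCategory Limits

universe w v u

namespace Pool.Agent.N90.AC

variable {K : Type w} [Field K] [CharZero K] {A : Type u} [Category.{v} A] [Abelian A] [Linear ℚ A]
  [MonoidalCategory A] [MonoidalPreadditive A] [BraidedCategory A] [RightRigidCategory A]
  {q : ℕ} (𝓜 : Motives K A q)

attribute [local instance] Motives.additive Motives.finite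

theorem betti_mono (hq : 1 < q) {L M : A} (i : L ⟶ M) [Mono i] (n : ℤ) :
    𝓜.betti M n = 𝓜.betti L n + 𝓜.betti (cokernel i) n :=
  betti_exact 𝓜 hq i (cokernel.π i) (cokernel.condition i) (ShortComplex.exact_cokernel i) n

theorem betti_epi (hq : 1 < q) {M Q : A} (p : M ⟶ Q) [Epi p] (n : ℤ) :
    𝓜.betti M n = 𝓜.betti (kernel p) n + 𝓜.betti Q n :=
  betti_exact 𝓜 hq (kernel.ι p) p (kernel.condition p) (ShortComplex.exact_kernel p) n

theorem total_mono (hq : 1 < q) {L M : A} (i : L ⟶ M) [Mono i] :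
    𝓜.totalBetti M = 𝓜.totalBetti L + 𝓜.totalBetti (cokernel i) :=
  total_exact 𝓜 hq i (cokernel.π i) (cokernel.condition i) (ShortComplex.exact_cokernel i)

theorem total_epi (hq : 1 < q) {M Q : A} (p : M ⟶ Q) [Epi p] :
    𝓜.totalBetti M = 𝓜.totalBetti (kernel p) + 𝓜.totalBetti Q :=
  total_exact 𝓜 hq (kernel.ι p) p (kernel.condition p) (ShortComplex.exact_kernel p)

theorem pole_mono (hq : 1 < q) {L M : A} (i : L ⟶ M) [Mono i] :
    𝓜.poleOrder M = 𝓜.poleOrder L + 𝓜.poleOrder (cokernel i) :=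
  pole_exact 𝓜 hq i (cokernel.π i) (cokernel.condition i) (ShortComplex.exact_cokernel i)

theorem pole_epi (hq : 1 < q) {M Q : A} (p : M ⟶ Q) [Epi p] :
    𝓜.poleOrder M = 𝓜.poleOrder (kernel p) + 𝓜.poleOrder Q :=
  pole_exact 𝓜 hq (kernel.ι p) p (kernel.condition p) (ShortComplex.exact_kernel p)

theorem isZero_of_id {M : A} (h : 𝟙 M = 0) : IsZero M := (IsZero.iff_id_eq_zero M).2 h

theorem id_of_isZero {M : A} (h : IsZero M) : 𝟙 M = 0 := (IsZero.iff_id_eq_zero M).1 h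

theorem total_tensor {M N : A} (h : 𝓜.totalBetti M = 0) : 𝓜.totalBetti (M ⊗ N) = 0 := by
  rw [total_eq_zero] at h ⊢
  intro n
  have h1 := 𝓜.kunneth M N n
  unfold Motives.betti at h ⊢
  rw [h1]
  simp [h]

theorem dual_id {M : A} (h : η_ M Mᘁ = 0) : 𝟙 M = 0 := by
  have h1 := ExactPairing.evaluation_coevaluation M Mᘁ
  rw [h, MonoidalPreadditive.zero_whiskerRight, zero_comp] at h1
  calc 𝟙 M = (λ_ M).inv ≫ ((λ_ M).hom ≫ (ρ_ M).inv) ≫ (ρ_ M).hom := by simp
    _ = 0 := by rw [← h1, zero_comp, comp_zero]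

theorem isZero_tensor {M N : A} (h : IsZero N) : IsZero (M ⊗ N) := by
  apply isZero_of_id
  rw [← MonoidalCategory.whiskerLeft_id, id_of_isZero h, MonoidalPreadditive.whiskerLeft_zero]

/-- **The cohomology is conservative.** -/
theorem isZero_of_total (hq : 1 < q) {N : A} (h : 𝓜.totalBetti N = 0) : IsZero N := by
  have h1 : 𝓜.totalBetti (N ⊗ Nᘁ) = 0 := total_tensor 𝓜 h
  let I := Abelian.image (η_ N Nᘁ)
  let p : 𝟙_ A ⟶ I := Abelian.factorThruImage (η_ N Nᘁ)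
  let j : I ⟶ N ⊗ Nᘁ := Abelian.image.ι (η_ N Nᘁ)
  have hpj : p ≫ j = η_ N Nᘁ := Abelian.image.fac _
  have hI : 𝓜.totalBetti I = 0 := by
    have h2 := total_mono 𝓜 hq j
    omega
  have hI' := (total_eq_zero 𝓜).1 hI
  let U := kernel p
  let i : U ⟶ 𝟙_ A := kernel.ι p
  have hU : ∀ n, 𝓜.betti U n = if n = 0 then 1 else 0 := by
    intro n
    have h2 := betti_epi 𝓜 hq p n
    rw [hI' n, add_zero] at h2
    rw [← h2]
    exact 𝓜.unit_cohomology n
  have htr : tr (𝟙 U) = 𝟙 (𝟙_ A) := by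
    obtain ⟨c, hc⟩ := 𝓜.unit_end (tr (𝟙 U))
    have h2 := 𝓜.trace_formula (𝟙 U) c hc
    have h3 : ∀ n : ℤ, (-1 : K) ^ n * LinearMap.trace K _ ((𝓜.H n).map (𝟙 U)).hom =
        if n = 0 then 1 else 0 := by
      intro n
      have h4 : ((𝓜.H n).map (𝟙 U)).hom = 1 := map_one (rho 𝓜 U n)
      have h5 : (Module.finrank K ((𝓜.H n).obj U) : K) = if n = 0 then 1 else 0 := by
        have h6 := hU n
        unfold Motives.betti at h6
        rw [h6]
        split_ifs <;> simp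
      rw [h4, LinearMap.trace_one, h5]
      split_ifs with h0
      · rw [h0]
        simp
      · simp
    rw [finsum_congr h3, finsum_eq_single _ 0 (fun n hn => if_neg hn), if_pos rfl] at h2
    have h7 : c = 1 := by exact_mod_cast h2
    rw [hc, h7, one_smul]
  have hz : IsZero (U ⊗ I) := by
    have h2 : U ◁ p ≫ i ▷ I = 0 := by
      rw [whisker_exchange]
      have h3 : i ▷ 𝟙_ A ≫ 𝟙_ A ◁ p = (ρ_ U).hom ≫ (i ≫ p) ≫ (λ_ I).inv := by
        rw [MonoidalCategory.id_whiskerLeft, MonoidalCategory.whiskerRight_id]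
        simp [unitors_equal]
      rw [h3, kernel.condition p, zero_comp, comp_zero]
    have h3 : i ▷ I = 0 := by
      rw [← cancel_epi (U ◁ p), h2, comp_zero]
    apply isZero_of_id
    rw [← cancel_mono (i ▷ I), h3, comp_zero, comp_zero]
  have hz2 : IsZero ((U ⊗ Uᘁ) ⊗ I) := by
    have e : (U ⊗ Uᘁ) ⊗ I ≅ Uᘁ ⊗ (U ⊗ I) := whiskerRightIso (β_ U Uᘁ) I ≪≫ α_ _ _ _
    exact (isZero_tensor hz).of_iso e
  have hI0 : 𝟙 I = 0 := by
    have h2 : (η_ U Uᘁ ≫ (β_ U Uᘁ).hom ≫ ε_ U Uᘁ) = 𝟙 (𝟙_ A) := by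
      rw [← htr]
      unfold tr
      simp
    have h3 : 𝟙 I = (λ_ I).inv ≫ (η_ U Uᘁ) ▷ I ≫ ((β_ U Uᘁ).hom ≫ ε_ U Uᘁ) ▷ I ≫ (λ_ I).hom := by
      rw [← comp_whiskerRight_assoc, h2]
      simp
    rw [h3, hz2.eq_of_tgt (η_ U Uᘁ ▷ I) 0, zero_comp, comp_zero]
  apply isZero_of_id
  apply dual_id
  rw [← hpj, ← Category.comp_id p, hI0, comp_zero, zero_comp]

end Pool.Agent.N90.AC
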