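import Pool.Agent.N90.AC.Nil
import Mathlib.LinearAlgebra.Dimension.Finite
import Mathlib.LinearAlgebra.FiniteDimensional.Basic
import Mathlib.LinearAlgebra.LinearIndependent.Lemmas

/-!
# The Chow groups are finite-dimensional
-/

set_option autoImplicit false

open CategoryTheory MonoidalCategory Limits

universe w v u

namespace Pool.Agent.N90.AC

variable {K : Type w} [Field K] [CharZero K] {A : Type u} [Category.{v} A] [Abelian A] [Linear ℚ A]
  [MonoidalCategory A] [MonoidalPreadditive A] [BraidedCategory A] [RightRigidCategory A]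
  {q : ℕ} (𝓜 : Motives K A q)

attribute [local instance] Motives.additive Motives.finite

theorem total_unit : 𝓜.totalBetti (𝟙_ A) = 1 := by
  unfold Motives.totalBetti
  have h1 : ∀ n, 𝓜.betti (𝟙_ A) n = if n = 0 then 1 else 0 := 𝓜.unit_cohomology
  rw [finsum_congr h1, finsum_eq_single _ 0 (fun n hn => if_neg hn), if_pos rfl]

include 𝓜 in
theorem mono_of_ne (hq : 1 < q) {M : A} {x : 𝟙_ A ⟶ M} (hx : x ≠ 0) : Mono x := by
  have h1 := total_mono 𝓜 hq (kernel.ι x)
  rw [total_unit] at h1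
  by_cases h2 : 𝓜.totalBetti (kernel x) = 0
  · exact Preadditive.mono_of_isZero_kernel x (isZero_of_total 𝓜 hq h2)
  · exfalso
    have h3 : 𝓜.totalBetti (cokernel (kernel.ι x)) = 0 := by omega
    have h4 : Epi (kernel.ι x) :=
      Preadditive.epi_of_isZero_cokernel _ (isZero_of_total 𝓜 hq h3)
    apply hx
    rw [← cancel_epi (kernel.ι x), kernel.condition, comp_zero]

include 𝓜 in
theorem epi_of_ne (hq : 1 < q) {M : A} {y : M ⟶ 𝟙_ A} (hy : y ≠ 0) : Epi y := by
  by_cases h : cokernel.π y = 0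
  · exact Preadditive.epi_of_cokernel_zero h
  · exfalso
    have h1 := mono_of_ne 𝓜 hq h
    apply hy
    rw [← cancel_mono (cokernel.π y), cokernel.condition, zero_comp]

theorem pole_unit : 𝓜.poleOrder (𝟙_ A) = 1 := by
  unfold Motives.poleOrder
  have h1 : ((𝓜.H 0).map (𝓜.Fr (𝟙_ A))).hom = 1 := by
    rw [𝓜.Fr_unit]
    exact map_one (rho 𝓜 (𝟙_ A) 0)
  rw [h1]
  have h2 : Module.End.maxGenEigenspace (1 : Module.End K ((𝓜.H 0).obj (𝟙_ A))) 1 = ⊤ := by
    rw [eq_top_iff]
    intro x _
    rw [Module.End.mem_maxGenEigenspace]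
    exact ⟨1, by simp⟩
  rw [h2, finrank_top]
  exact 𝓜.unit_cohomology 0

theorem indep_le (hq : 1 < q) (n : ℕ) : ∀ (M : A) (x : Fin n → (𝟙_ A ⟶ M)),
    LinearIndependent ℚ x → n ≤ 𝓜.poleOrder M := by
  induction n with
  | zero => intro _ _ _; exact Nat.zero_le _
  | succ n ih =>
    intro M x hx
    have h0 : x 0 ≠ 0 := hx.ne_zero 0
    have h1 := mono_of_ne 𝓜 hq h0
    have h2 := pole_mono 𝓜 hq (x 0)
    rw [pole_unit] at h2
    have h3 : LinearIndependent ℚ fun i : Fin n => x i.succ ≫ cokernel.π (x 0) := by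
      rw [Fintype.linearIndependent_iff]
      intro c hc
      have h4 : (∑ i, c i • x i.succ) ≫ cokernel.π (x 0) = 0 := by
        rw [Preadditive.sum_comp, ← hc]
        exact Finset.sum_congr rfl fun i _ => Linear.smul_comp _ _ _ _ _ _
      have h5 := (ShortComplex.exact_cokernel (x 0)).lift_f (∑ i, c i • x i.succ) h4
      obtain ⟨d, hd⟩ := 𝓜.unit_end
        ((ShortComplex.exact_cokernel (x 0)).lift (∑ i, c i • x i.succ) h4)
      rw [hd] at h5
      have h6 : d • x 0 = ∑ i, c i • x i.succ := by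
        rw [← h5]
        change _ = (d • 𝟙 (𝟙_ A)) ≫ x 0
        rw [Linear.smul_comp, Category.id_comp]
      have h7 := Fintype.linearIndependent_iff.1 hx (Fin.cons (-d) c) (by
        rw [Fin.sum_univ_succ]
        simp only [Fin.cons_zero, Fin.cons_succ]
        rw [← h6, neg_smul, neg_add_cancel])
      intro i
      have h8 := h7 i.succ
      rwa [Fin.cons_succ] at h8
    have h4 := ih _ _ h3
    omega

theorem indep_le2 (hq : 1 < q) (n m : ℕ) : ∀ (M : A) (x : Fin n → (𝟙_ A ⟶ M))
    (y : Fin m → (M ⟶ 𝟙_ A)), LinearIndependent ℚ x → LinearIndependent ℚ y →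
    (∀ i j, x i ≫ y j = 0) → n + m ≤ 𝓜.poleOrder M := by
  induction m with
  | zero => intro M x y hx _ _; exact indep_le 𝓜 hq n M x hx
  | succ m ih =>
    intro M x y hx hy hxy
    have h0 : y 0 ≠ 0 := hy.ne_zero 0
    have h1 := epi_of_ne 𝓜 hq h0
    have h2 := pole_epi 𝓜 hq (y 0)
    rw [pole_unit] at h2
    let x' : Fin n → (𝟙_ A ⟶ kernel (y 0)) := fun i => kernel.lift _ (x i) (hxy i 0)
    have hx' : ∀ i, x' i ≫ kernel.ι (y 0) = x i := fun i => kernel.lift_ι _ _ _
    have h3 : LinearIndependent ℚ x' := by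
      rw [Fintype.linearIndependent_iff] at hx ⊢
      intro c hc
      apply hx c
      have h4 : (∑ i, c i • x' i) ≫ kernel.ι (y 0) = 0 := by rw [hc, zero_comp]
      rw [Preadditive.sum_comp] at h4
      rw [← h4]
      refine Finset.sum_congr rfl fun i _ => ?_
      rw [Linear.smul_comp, hx']
    have h4 : LinearIndependent ℚ fun j : Fin m => kernel.ι (y 0) ≫ y j.succ := by
      rw [Fintype.linearIndependent_iff]
      intro c hc
      have h4 : kernel.ι (y 0) ≫ (∑ i, c i • y i.succ) = 0 := by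
        rw [Preadditive.comp_sum, ← hc]
        exact Finset.sum_congr rfl fun i _ => Linear.comp_smul _ _ _ _ _ _
      have h5 := (ShortComplex.exact_kernel (y 0)).g_desc (∑ i, c i • y i.succ) h4
      obtain ⟨d, hd⟩ := 𝓜.unit_end
        ((ShortComplex.exact_kernel (y 0)).desc (∑ i, c i • y i.succ) h4)
      rw [hd] at h5
      have h6 : d • y 0 = ∑ i, c i • y i.succ := by
        rw [← h5]
        change _ = y 0 ≫ (d • 𝟙 (𝟙_ A))
        rw [Linear.comp_smul, Category.comp_id]
      have h7 := Fintype.linearIndependent_iff.1 hy (Fin.cons (-d) c) (by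
        rw [Fin.sum_univ_succ]
        simp only [Fin.cons_zero, Fin.cons_succ]
        rw [← h6, neg_smul, neg_add_cancel])
      intro i
      have h8 := h7 i.succ
      rwa [Fin.cons_succ] at h8
    have h5 := ih (kernel (y 0)) x' _ h3 h4 (by
      intro i j
      rw [← Category.assoc, hx', hxy])
    omega

include 𝓜 in
theorem finite_unit_hom (hq : 1 < q) (M : A) : Module.Finite ℚ (𝟙_ A ⟶ M) := by
  have h1 : Module.rank ℚ (𝟙_ A ⟶ M) ≤ 𝓜.poleOrder M := by
    apply rank_le
    intro s hs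
    have h2 : LinearIndependent ℚ fun i : Fin s.card => ((s.equivFin.symm i : s) : 𝟙_ A ⟶ M) :=
      hs.comp _ s.equivFin.symm.injective
    exact indep_le 𝓜 hq _ M _ h2
  exact Module.rank_lt_aleph0_iff.1 (h1.trans_lt (Cardinal.natCast_lt_aleph0))

include 𝓜 in
theorem finite_hom_unit (hq : 1 < q) (M : A) : Module.Finite ℚ (M ⟶ 𝟙_ A) := by
  have h1 : Module.rank ℚ (M ⟶ 𝟙_ A) ≤ 𝓜.poleOrder M := by
    apply rank_le
    intro s hs
    have h2 : LinearIndependent ℚ fun i : Fin s.card => ((s.equivFin.symm i : s) : M ⟶ 𝟙_ A) :=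
      hs.comp _ s.equivFin.symm.injective
    have h3 := indep_le2 𝓜 hq 0 _ M Fin.elim0 _ (linearIndependent_empty_type) h2
      (fun i => i.elim0)
    omega
  exact Module.rank_lt_aleph0_iff.1 (h1.trans_lt (Cardinal.natCast_lt_aleph0))

theorem finrank_le (hq : 1 < q) (M : A) :
    Module.finrank ℚ (numTrivial M) + Module.finrank ℚ (M ⟶ 𝟙_ A) ≤ 𝓜.poleOrder M := by
  have := finite_unit_hom 𝓜 hq M
  have := finite_hom_unit 𝓜 hq M
  let b := Module.finBasis ℚ (numTrivial M)
  let b' := Module.finBasis ℚ (M ⟶ 𝟙_ A)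
  have h1 : LinearIndependent ℚ fun i => ((b i : numTrivial M) : 𝟙_ A ⟶ M) :=
    b.linearIndependent.map' (numTrivial M).subtype (Submodule.ker_subtype _)
  exact indep_le2 𝓜 hq _ _ M _ _ h1 b'.linearIndependent fun i j => (b i).2 (b' j)

/-- **The strong Tate conjecture implies that rational and numerical equivalence agree.** -/
theorem numTrivial_eq_bot (hq : 1 < q) {M : A} (h : 𝓜.StrongTate M) : numTrivial M = ⊥ := by
  obtain ⟨x, y, hxy⟩ := h
  have := finite_unit_hom 𝓜 hq M
  have := finite_hom_unit 𝓜 hq M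
  have hne : 𝟙 (𝟙_ A) ≠ 0 := by
    intro h0
    have h1 := 𝓜.trace_formula (𝟙 (𝟙_ A)) 0 (by
      have h2 : tr (𝟙 (𝟙_ A)) = 0 := by
        rw [h0]
        unfold tr
        simp
      rw [h2, zero_smul])
    have h3 := 𝓜.unit_cohomology 0
    rw [if_pos rfl] at h3
    have h4 : IsZero ((𝓜.H 0).obj (𝟙_ A)) := (𝓜.H 0).map_isZero (isZero_of_id h0)
    have h5 : Subsingleton ((𝓜.H 0).obj (𝟙_ A)) := ModuleCat.subsingleton_of_isZero h4
    rw [Module.finrank_zero_of_subsingleton] at h3
    omega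
  have hy : LinearIndependent ℚ y := by
    rw [Fintype.linearIndependent_iff]
    intro c hc i
    have h1 : x i ≫ (∑ j, c j • y j) = 0 := by rw [hc, comp_zero]
    rw [Preadditive.comp_sum, Finset.sum_eq_single i] at h1
    · rw [Linear.comp_smul, hxy, if_pos rfl] at h1
      exact (smul_eq_zero.1 h1).resolve_right hne
    · intro j _ hj
      rw [Linear.comp_smul, hxy, if_neg (Ne.symm hj), smul_zero]
    · intro hi
      exact absurd (Finset.mem_univ i) hi
  have h1 := hy.fintype_card_le_finrank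
  rw [Fintype.card_fin] at h1
  have h2 := finrank_le 𝓜 hq M
  have h3 : Module.finrank ℚ (numTrivial M) = 0 := by omega
  exact Submodule.finrank_eq_zero.1 h3

end Pool.Agent.N90.AC
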