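import Pool.Agent.N90.AC.Trace
import Mathlib.CategoryTheory.Linear.Basic
import Mathlib.CategoryTheory.Subobject.Basic
import Mathlib.Algebra.Category.ModuleCat.Basic
import Mathlib.LinearAlgebra.Charpoly.Basic
import Mathlib.LinearAlgebra.Trace
import Mathlib.LinearAlgebra.Eigenspace.Basic
import Mathlib.Analysis.Complex.Basic
import Mathlib.Algebra.BigOperators.Finprod

/-!
# Abelian categories of Chow motives over finite fields: definitions
-/

set_option autoImplicit false

open CategoryTheory MonoidalCategory Limits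

universe w v u

namespace Pool.Agent.N90.AC

variable (K : Type w) [Field K] [CharZero K] (A : Type u) [Category.{v} A] [Abelian A] [Linear ℚ A]
  [MonoidalCategory A] [BraidedCategory A] [RightRigidCategory A]

/-- The known properties of the category `A` of the Chow motives with rational coefficients over the
field with `q` elements: it is a rigid tensor category in which the endomorphisms of the unit are the
rational numbers; there are a Weil cohomology `H` with coefficients in `K`, and the Frobenius
endomorphisms `Fr M`. (For the motive `h(X)(m)` the vector space `H i` is `H^(i + 2 m)(X)(m)`.) -/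
structure Motives (q : ℕ) where
  /-- the cohomology in degree `i` -/
  H : ℤ → A ⥤ ModuleCat.{w} K
  additive : ∀ i, (H i).Additive
  finite : ∀ i M, Module.Finite K ((H i).obj M)
  bounded : ∀ M, {i : ℤ | Module.finrank K ((H i).obj M) ≠ 0}.Finite
  /-- the Künneth formula -/
  kunneth : ∀ (M N : A) (n : ℤ), Module.finrank K ((H n).obj (M ⊗ N)) =
    ∑ᶠ i : ℤ, Module.finrank K ((H i).obj M) * Module.finrank K ((H (n - i)).obj N)
  /-- the cohomology of the unit -/
  unit_cohomology : ∀ i : ℤ, Module.finrank K ((H i).obj (𝟙_ A)) = if i = 0 then 1 else 0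
  unit_end : ∀ f : 𝟙_ A ⟶ 𝟙_ A, ∃ c : ℚ, f = c • 𝟙 (𝟙_ A)
  /-- the Lefschetz trace formula -/
  trace_formula : ∀ {M : A} (f : M ⟶ M) (c : ℚ), tr f = c • 𝟙 (𝟙_ A) →
    (c : K) = ∑ᶠ i : ℤ, (-1) ^ i * LinearMap.trace K _ ((H i).map f).hom
  /-- the Frobenius endomorphisms -/
  Fr : ∀ M : A, M ⟶ M
  natural : ∀ {M N : A} (f : M ⟶ N), Fr M ≫ f = f ≫ Fr N
  Fr_unit : Fr (𝟙_ A) = 𝟙 (𝟙_ A)
  /-- the theorem of Deligne (Weil conjectures) -/
  weil : ∀ (M : A) (i : ℤ), ∃ P : Polynomial ℚ,
    ((H i).map (Fr M)).hom.charpoly = P.map (algebraMap ℚ K) ∧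
    ∀ z : ℂ, Polynomial.aeval z P = 0 → ‖z‖ ^ 2 = (q : ℝ) ^ i

variable {K A} {q : ℕ} (𝓜 : Motives K A q)

/-- The dimension of `H^i(M)`. -/
noncomputable def Motives.betti (M : A) (i : ℤ) : ℕ := Module.finrank K ((𝓜.H i).obj M)

/-- The sum of the Betti numbers of `M`. -/
noncomputable def Motives.totalBetti (M : A) : ℕ := ∑ᶠ i : ℤ, 𝓜.betti M i

/-- The multiplicity of the eigenvalue `1` of the Frobenius endomorphism on `H^0(M)`. For
`M = h(X)(i)` this is the multiplicity of `q ^ i` on `H^(2 i)(X)`, that is the order of the pole of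
the zeta function of `X` at `s = i`. -/
noncomputable def Motives.poleOrder (M : A) : ℕ :=
  Module.finrank K (Module.End.maxGenEigenspace ((𝓜.H 0).map (𝓜.Fr M)).hom 1)

/-- The endomorphism `P(Fr)` of `M`, for a polynomial `P` with rational coefficients. -/
noncomputable def Motives.frobPoly (M : A) (P : Polynomial ℚ) : M ⟶ M :=
  Polynomial.aeval (R := ℚ) (A := End M) (𝓜.Fr M : End M) P

/-- The tensor powers of `M`. -/
def power (M : A) : ℕ → A
  | 0 => 𝟙_ A
  | n + 1 => power M n ⊗ M

/-- Chow–Künneth projectors: finitely many polynomials in the Frobenius endomorphism of `M`, which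
are orthogonal idempotent endomorphisms of `M` with the sum `1`, such that the endomorphism with the
index `i` acts on the cohomology as the projection to `H^i(M)`. -/
def Motives.ChowKunneth (M : A) : Prop :=
  ∃ (s : Finset ℤ) (e : ℤ → Polynomial ℚ),
    (∀ i ∈ s, ∀ j ∈ s, 𝓜.frobPoly M (e i) ≫ 𝓜.frobPoly M (e j) =
      if i = j then 𝓜.frobPoly M (e i) else 0) ∧
    ∑ i ∈ s, 𝓜.frobPoly M (e i) = 𝟙 M ∧
    ∀ i ∈ s, ∀ j, (𝓜.H j).map (𝓜.frobPoly M (e i)) = if i = j then 𝟙 _ else 0

/-- The endomorphism `f` is numerically trivial: the traces of all `f ≫ h` are `0`. -/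
def NumTrivialEnd {M : A} (f : M ⟶ M) : Prop := ∀ h : M ⟶ M, tr (f ≫ h) = 0

/-- The cycle classes `x` (for `M = h(X)(i)`: cycles of codimension `i` modulo rational equivalence,
with rational coefficients) which are numerically trivial: the intersection numbers with all cycles
of complementary codimension are `0`. -/
def numTrivial (M : A) : Submodule ℚ (𝟙_ A ⟶ M) where
  carrier := {x | ∀ y : M ⟶ 𝟙_ A, x ≫ y = 0}
  add_mem' := by
    intro a b ha hb y
    rw [Preadditive.add_comp, ha y, hb y, add_zero]
  zero_mem' := by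
    intro y
    exact zero_comp
  smul_mem' := by
    intro c x hx y
    rw [Linear.smul_comp, hx y, smul_zero]

/-- The strong form of the Tate conjecture for `M`: there are as many cycle classes which are
linearly independent modulo numerical equivalence as the multiplicity `poleOrder`. -/
def Motives.StrongTate (M : A) : Prop :=
  ∃ (x : Fin (𝓜.poleOrder M) → (𝟙_ A ⟶ M)) (y : Fin (𝓜.poleOrder M) → (M ⟶ 𝟙_ A)),
    ∀ i j, x i ≫ y j = if i = j then 𝟙 (𝟙_ A) else 0

end Pool.Agent.N90.AC
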