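import Pool.Agent.N90.AC.Kim
import Pool.Agent.N90.AC.CK

/-!
# Kimura finiteness of all motives
-/

set_option autoImplicit false

open CategoryTheory MonoidalCategory Limits

universe w v u

namespace Pool.Agent.N90.AC

variable {K : Type w} [Field K] [CharZero K] {A : Type u} [Category.{v} A] [Abelian A] [Linear ℚ A]
  [MonoidalCategory A] [MonoidalPreadditive A] [SymmetricCategory A] [RightRigidCategory A]
  {q : ℕ} (𝓜 : Motives K A q)

attribute [local instance] Motives.additive Motives.finite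

theorem exists_image {M : A} {c : ℤ} (e : M ⟶ M) (he : e ≫ e = e)
    (h : ∀ i, ¬ Even (i - c) → (𝓜.H i).map e = 0) :
    ∃ (I : A) (j : I ⟶ M) (p : M ⟶ I), p ≫ j = e ∧ j ≫ p = 𝟙 I ∧ Par 𝓜 I c := by
  let p := Abelian.factorThruImage e
  let j := Abelian.image.ι e
  have hpj : p ≫ j = e := Abelian.image.fac e
  have hjp : j ≫ p = 𝟙 _ := by
    rw [← cancel_epi p, ← cancel_mono j, ← Category.assoc, hpj, Category.assoc, hpj, he,
      Category.comp_id, hpj]
  refine ⟨Abelian.image e, j, p, hpj, hjp, fun i hi => ?_⟩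
  by_contra hcon
  apply hi
  have h1 : (𝓜.H i).map (𝟙 (Abelian.image e)) = 0 := by
    have h2 : 𝟙 (Abelian.image e) = j ≫ e ≫ p := by
      have h5 : e ≫ p = p := by
        rw [← cancel_mono j, Category.assoc, hpj, he]
      rw [h5, hjp]
    rw [h2, Functor.map_comp, Functor.map_comp, h i hcon, zero_comp, comp_zero]
  rw [CategoryTheory.Functor.map_id] at h1
  have h3 : IsZero ((𝓜.H i).obj (Abelian.image e)) := (IsZero.iff_id_eq_zero _).2 h1
  have h4 : Subsingleton ((𝓜.H i).obj (Abelian.image e)) := ModuleCat.subsingleton_of_isZero h3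
  exact Module.finrank_zero_of_subsingleton

/-- **All motives are finite-dimensional in the sense of Kimura and O'Sullivan.** -/
theorem kimura_finite (hq : 1 < q) (M : A) : 𝓜.KimuraFinite M := by
  classical
  obtain ⟨s, e, h1, h2, h3⟩ := chow_kunneth 𝓜 hq M
  let S : (ℤ → Prop) → (M ⟶ M) := fun D => ∑ i ∈ s with D i, 𝓜.frobPoly M (e i)
  let E : M ⟶ M := S fun i => Even i
  let F : M ⟶ M := S fun i => ¬ Even i
  have hEF : E + F = 𝟙 M := by
    have h0 : ∀ (D : ℤ → Prop) [DecidablePred D],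
        S D = ∑ i ∈ s with D i, 𝓜.frobPoly M (e i) := by
      intro D hD
      refine Finset.sum_congr ?_ fun _ _ => rfl
      ext i
      simp
    simp only [E, F]
    rw [← h2, h0, h0]
    exact Finset.sum_filter_add_sum_filter_not _ _ _
  have hid : ∀ (D : ℤ → Prop), S D ≫ S D = S D := by
    intro D
    change (∑ i ∈ s with D i, 𝓜.frobPoly M (e i)) ≫
      (∑ i ∈ s with D i, 𝓜.frobPoly M (e i)) = ∑ i ∈ s with D i, 𝓜.frobPoly M (e i)
    rw [Preadditive.sum_comp]
    refine Finset.sum_congr rfl fun i hi => ?_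
    rw [Preadditive.comp_sum, Finset.sum_eq_single i]
    · rw [h1 i (Finset.mem_filter.1 hi).1 i (Finset.mem_filter.1 hi).1, if_pos rfl]
    · intro j hj hji
      rw [h1 i (Finset.mem_filter.1 hi).1 j (Finset.mem_filter.1 hj).1, if_neg (Ne.symm hji)]
    · intro hi'
      exact absurd hi hi'
  have hH : ∀ (D : ℤ → Prop) (j : ℤ), ¬ D j → (𝓜.H j).map (S D) = 0 := by
    intro D j hj
    change (𝓜.H j).map (∑ i ∈ s with D i, 𝓜.frobPoly M (e i)) = 0
    rw [Functor.map_sum]
    refine Finset.sum_eq_zero fun i hi => ?_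
    rw [h3 i (Finset.mem_filter.1 hi).1 j, if_neg]
    rintro rfl
    exact hj (Finset.mem_filter.1 hi).2
  obtain ⟨P, i, r, hri, hir, hP⟩ := exists_image 𝓜 (c := 0) E (hid _) (fun j hj => by
    rw [sub_zero] at hj
    exact hH (fun i => Even i) j hj)
  obtain ⟨N, j, t, htj, hjt, hN⟩ := exists_image 𝓜 (c := 1) F (hid _) (fun j hj => by
    refine hH (fun i => ¬ Even i) j fun h => hj ?_
    rw [Int.not_even_iff_odd] at h
    exact h.sub_odd odd_one)
  refine ⟨P, N, i, r, j, t, hir, hjt, by rw [hri, htj, hEF], ?_, ?_⟩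
  · have h4 := kimura 𝓜 hq hP
    rwa [zpow_zero] at h4
  · have h4 := kimura 𝓜 hq hN
    rwa [zpow_one, neg_neg] at h4

end Pool.Agent.N90.AC
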