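import Pool.Agent.N90.AC.Cyc

/-!
# The lengths of the tensor powers
-/

set_option autoImplicit false

open CategoryTheory MonoidalCategory Limits

universe w v u

namespace Pool.Agent.N90.AC

theorem finsum_conv (a b : ℤ → ℕ) (ha : (Function.support a).Finite)
    (hb : (Function.support b).Finite) :
    ∑ᶠ n : ℤ, ∑ᶠ i : ℤ, a i * b (n - i) = (∑ᶠ i, a i) * ∑ᶠ j, b j := by
  let f : ℤ × ℤ → ℕ := fun x => a x.2 * b (x.1 - x.2)
  have hf : (Function.support f).Finite := by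
    refine ((hb.prod ha).image fun x : ℤ × ℤ => (x.1 + x.2, x.2)).subset ?_
    rintro ⟨n, i⟩ h
    have h1 : a i * b (n - i) ≠ 0 := h
    refine ⟨(n - i, i), ⟨right_ne_zero_of_mul h1, left_ne_zero_of_mul h1⟩, ?_⟩
    simp
  have hf' : (Function.support (f ∘ (Equiv.prodComm ℤ ℤ))).Finite := by
    rw [Function.support_comp_eq_preimage]
    exact hf.preimage (Equiv.injective _).injOn
  have h1 := finsum_curry f hf
  have h2 := finsum_curry (f ∘ (Equiv.prodComm ℤ ℤ)) hf'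
  have h3 : ∑ᶠ x, (f ∘ (Equiv.prodComm ℤ ℤ)) x = ∑ᶠ x, f x := finsum_comp_equiv _
  change ∑ᶠ n : ℤ, ∑ᶠ i : ℤ, f (n, i) = _
  rw [← h1, ← h3, h2]
  have h4 : ∀ i : ℤ, ∑ᶠ n : ℤ, (f ∘ (Equiv.prodComm ℤ ℤ)) (i, n) = a i * ∑ᶠ j, b j := by
    intro i
    change ∑ᶠ n : ℤ, a i * b (n - i) = _
    have h5 : ∑ᶠ n : ℤ, b (n - i) = ∑ᶠ j, b j := finsum_comp_equiv (Equiv.subRight i)
    rw [← h5, mul_finsum]
  rw [finsum_congr h4, finsum_mul]

variable {K : Type w} [Field K] [CharZero K] {A : Type u} [Category.{v} A] [Abelian A] [Linear ℚ A]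
  [MonoidalCategory A] [MonoidalPreadditive A] [BraidedCategory A] [RightRigidCategory A]
  {q : ℕ} (𝓜 : Motives K A q)

theorem total_mul (M N : A) : 𝓜.totalBetti (M ⊗ N) = 𝓜.totalBetti M * 𝓜.totalBetti N := by
  have h1 := finsum_conv (𝓜.betti M) (𝓜.betti N) (𝓜.bounded M) (𝓜.bounded N)
  unfold Motives.totalBetti
  rw [← h1]
  exact finsum_congr fun n => 𝓜.kunneth M N n

theorem total_power (M : A) (n : ℕ) : 𝓜.totalBetti (power M n) = 𝓜.totalBetti M ^ n := by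
  induction n with
  | zero =>
    rw [pow_zero]
    exact total_unit 𝓜
  | succ n ih =>
    rw [pow_succ, ← ih]
    exact total_mul 𝓜 _ _

end Pool.Agent.N90.AC
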