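import Pool.Agent.N90.AC.Sym
import Pool.Agent.N90.AC.Growth

/-!
# Kimura finiteness
-/

set_option autoImplicit false

open CategoryTheory MonoidalCategory Limits

universe w v u

namespace Pool.Agent.N90.AC

section

variable {A : Type u} [Category.{v} A] [Abelian A] [Linear ℚ A] [MonoidalCategory A]
  [MonoidalPreadditive A] [SymmetricCategory A] [RightRigidCategory A]

theorem tr_tensor (X M : A) (g : X ⊗ M ⟶ X ⊗ M) : tr g = tr (Tr X M Mᘁ g) := by
  change trp (X ⊗ M) ((X ⊗ M)ᘁ) g = trp X Xᘁ _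
  rw [trp_indep (M'' := Mᘁ ⊗ Xᘁ), trp_tensor]

/-- the partial trace as a homomorphism -/
def TrHom (X M : A) : (X ⊗ M ⟶ X ⊗ M) →+ (X ⟶ X) where
  toFun g := Tr X M Mᘁ g
  map_zero' := by
    unfold Tr
    rw [MonoidalPreadditive.zero_whiskerRight]
    simp
  map_add' g h := by
    unfold Tr
    rw [MonoidalPreadditive.add_whiskerRight]
    simp

/-- tensoring from the left as a homomorphism -/
def wlHom (X Y Z : A) : (Y ⟶ Z) →+ (X ⊗ Y ⟶ X ⊗ Z) where
  toFun g := X ◁ g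
  map_zero' := MonoidalPreadditive.whiskerLeft_zero
  map_add' g h := MonoidalPreadditive.whiskerLeft_add g h

theorem Tr_one {M : A} {d : ℚ} (hd : tr (𝟙 M) = d • 𝟙 (𝟙_ A)) (X : A) :
    Tr X M Mᘁ (𝟙 _) = d • 𝟙 X := by
  rw [Tr_id]
  change (ρ_ X).inv ≫ X ◁ (tr (𝟙 M)) ≫ (ρ_ X).hom = _
  rw [hd]
  have h1 : X ◁ (d • 𝟙 (𝟙_ A)) = d • 𝟙 (X ⊗ 𝟙_ A) := by
    have h2 := map_rat_smul (wlHom X (𝟙_ A) (𝟙_ A)) d (𝟙 _)
    change X ◁ (d • 𝟙 (𝟙_ A)) = d • X ◁ (𝟙 (𝟙_ A)) at h2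
    rw [h2, MonoidalCategory.whiskerLeft_id]
  rw [h1, Linear.smul_comp, Linear.comp_smul, Category.id_comp, Iso.inv_hom_id]

theorem Tr_sym {ε : ℚ} (hε : ε * ε = 1) {M : A} {d : ℚ} (hd : tr (𝟙 M) = d • 𝟙 (𝟙_ A)) (n : ℕ) :
    Tr (power M (n + 1)) M Mᘁ (sym ε M (n + 2)) =
      (((n : ℚ) + 2)⁻¹ * (d + ε * ((n : ℚ) + 1))) • (sym ε M (n + 1) : power M (n + 1) ⟶ _) := by
  have h1 := (sym_main hε M n).1
  set f : power M (n + 1) ⟶ power M (n + 1) := sym ε M (n + 1) with hf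
  have h2 : Tr (power M (n + 1)) M Mᘁ (f ▷ M) = d • f := by
    have h3 := Tr_comp_left (power M (n + 1)) M Mᘁ f (𝟙 _)
    rw [Category.comp_id, Tr_one hd, Linear.comp_smul, Category.comp_id] at h3
    exact h3
  have h3 : Tr (power M (n + 1)) M Mᘁ (f ▷ M ≫ sw (power M n) M ≫ f ▷ M) = f := by
    have h4 : Tr (power M (n + 1)) M Mᘁ (sw (power M n) M) = 𝟙 (power M (n + 1)) :=
      Tr_sw (power M n) M Mᘁ
    have h5 : Tr (power M (n + 1)) M Mᘁ (sw (power M n) M ≫ f ▷ M) =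
        Tr (power M (n + 1)) M Mᘁ (sw (power M n) M) ≫ f :=
      Tr_comp_right (power M (n + 1)) M Mᘁ f (sw (power M n) M)
    rw [Tr_comp_left]
    refine (congrArg (fun z => f ≫ z) h5).trans ?_
    refine (congrArg (fun z => f ≫ z ≫ f) h4).trans ?_
    change f ≫ 𝟙 _ ≫ f = f
    rw [Category.id_comp]
    exact h1
  change TrHom (power M (n + 1)) M (((n : ℚ) + 2)⁻¹ • ((f ▷ M) + (ε * ((n : ℚ) + 1)) •
    (f ▷ M ≫ sw (power M n) M ≫ f ▷ M))) = _
  rw [map_rat_smul, map_add, map_rat_smul]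
  change ((n : ℚ) + 2)⁻¹ • (Tr (power M (n + 1)) M Mᘁ (f ▷ M) + (ε * ((n : ℚ) + 1)) •
    Tr (power M (n + 1)) M Mᘁ (f ▷ M ≫ sw (power M n) M ≫ f ▷ M)) = _
  rw [h2, h3]
  module

theorem tr_sym {ε : ℚ} (hε : ε * ε = 1) {M : A} {d : ℚ} (hd : tr (𝟙 M) = d • 𝟙 (𝟙_ A)) {n : ℕ}
    (h : d + ε * ((n : ℚ) + 1) = 0) : tr (sym ε M (n + 2) : power M (n + 2) ⟶ _) = 0 := by
  have h1 : tr (sym ε M (n + 2) : power M (n + 2) ⟶ _) =
      tr (Tr (power M (n + 1)) M Mᘁ (sym ε M (n + 2))) := tr_tensor (power M (n + 1)) M _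
  rw [h1, Tr_sym hε hd, h, mul_zero, zero_smul]
  unfold tr
  simp

end

variable {K : Type w} [Field K] [CharZero K] {A : Type u} [Category.{v} A] [Abelian A] [Linear ℚ A]
  [MonoidalCategory A] [MonoidalPreadditive A] [SymmetricCategory A] [RightRigidCategory A]
  {q : ℕ} (𝓜 : Motives K A q)

attribute [local instance] Motives.additive Motives.finite

/-- the cohomology is concentrated in the degrees congruent to `c` modulo `2` -/
def Par (M : A) (c : ℤ) : Prop := ∀ i, 𝓜.betti M i ≠ 0 → Even (i - c)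

theorem par_tensor {M N : A} {c d : ℤ} (hM : Par 𝓜 M c) (hN : Par 𝓜 N d) :
    Par 𝓜 (M ⊗ N) (c + d) := by
  intro n hn
  have h1 := 𝓜.kunneth M N n
  by_contra hcon
  apply hn
  unfold Motives.betti
  rw [h1, finsum_eq_zero_of_forall_eq_zero]
  intro i
  by_contra hne
  have h2 := hM i (left_ne_zero_of_mul hne)
  have h3 := hN (n - i) (right_ne_zero_of_mul hne)
  apply hcon
  have h4 := h2.add h3
  rwa [show i - c + (n - i - d) = n - (c + d) by ring] at h4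

theorem par_power {M : A} {c : ℤ} (hM : Par 𝓜 M c) (n : ℕ) : Par 𝓜 (power M n) (n * c) := by
  induction n with
  | zero =>
    intro i hi
    have h1 : 𝓜.betti (𝟙_ A) i = if i = 0 then 1 else 0 := 𝓜.unit_cohomology i
    have h2 : i = 0 := by
      by_contra hne
      rw [if_neg hne] at h1
      exact hi h1
    rw [h2]
    simp
  | succ n ih =>
    have h1 := par_tensor 𝓜 ih hM
    rw [show ((n + 1 : ℕ) : ℤ) * c = n * c + c by push_cast; ring]
    exact h1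

theorem euler {M : A} {c : ℤ} (hM : Par 𝓜 M c) {d : ℚ} (hd : tr (𝟙 M) = d • 𝟙 (𝟙_ A)) :
    d = (-1) ^ c * (𝓜.totalBetti M : ℚ) := by
  have h1 := 𝓜.trace_formula (𝟙 M) d hd
  have h2 : ∀ i : ℤ, (-1 : K) ^ i * LinearMap.trace K _ ((𝓜.H i).map (𝟙 M)).hom =
      (-1 : K) ^ c * (𝓜.betti M i : K) := by
    intro i
    have h3 : ((𝓜.H i).map (𝟙 M)).hom = 1 := map_one (rho 𝓜 M i)
    rw [h3, LinearMap.trace_one]
    change _ * (𝓜.betti M i : K) = _
    by_cases h0 : 𝓜.betti M i = 0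
    · rw [h0]
      simp
    · obtain ⟨k, hk⟩ := hM i h0
      have h4 : i = c + (k + k) := by linarith
      rw [h4, zpow_add₀ (by norm_num : (-1 : K) ≠ 0), zpow_add₀ (by norm_num : (-1 : K) ≠ 0) k k,
        ← mul_zpow]
      simp
  rw [finsum_congr h2, ← mul_finsum] at h1
  have h5 : (∑ᶠ i, (𝓜.betti M i : K)) = (𝓜.totalBetti M : K) := by
    unfold Motives.totalBetti
    exact ((Nat.castAddMonoidHom K).map_finsum (𝓜.bounded M)).symm
  rw [h5] at h1
  have h6 : ((d : ℚ) : K) = (((-1) ^ c * (𝓜.totalBetti M : ℚ) : ℚ) : K) := by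
    rw [h1]
    push_cast
    rfl
  exact_mod_cast h6

/-- An idempotent endomorphism with trace zero of a motive of pure parity is zero. -/
theorem idem_zero (hq : 1 < q) {T : A} {c : ℤ} (hT : Par 𝓜 T c) (e : T ⟶ T) (he : e ≫ e = e)
    (htr : tr e = 0) : e = 0 := by
  let p := Abelian.factorThruImage e
  let j := Abelian.image.ι e
  have hpj : p ≫ j = e := Abelian.image.fac e
  have hjp : j ≫ p = 𝟙 _ := by
    rw [← cancel_epi p, ← cancel_mono j, ← Category.assoc, hpj, Category.assoc, hpj, he,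
      Category.comp_id, hpj]
  have h1 : tr (𝟙 (Abelian.image e)) = (0 : ℚ) • 𝟙 (𝟙_ A) := by
    rw [← hjp, tr_cyc, hpj, htr, zero_smul]
  have hI : Par 𝓜 (Abelian.image e) c := by
    intro i hi
    apply hT i
    have h2 := betti_mono 𝓜 hq j i
    change 𝓜.betti T i = 𝓜.betti (Abelian.image e) i + _ at h2
    omega
  have h2 := euler 𝓜 hI h1
  have h3 : ((-1 : ℚ)) ^ c ≠ 0 := zpow_ne_zero _ (by norm_num)
  have h4 : 𝓜.totalBetti (Abelian.image e) = 0 := by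
    rcases mul_eq_zero.1 h2.symm with h5 | h5
    · exact absurd h5 h3
    · exact_mod_cast h5
  have h5 := isZero_of_total 𝓜 hq h4
  rw [← hpj, h5.eq_of_tgt p 0, zero_comp]

/-- **Kimura finiteness of motives of pure parity** -/
theorem kimura (hq : 1 < q) {M : A} {c : ℤ} (hM : Par 𝓜 M c) :
    sym (-(-1) ^ c) M (𝓜.totalBetti M + 1) = 0 := by
  have hε : (-(-1 : ℚ) ^ c) * (-(-1) ^ c) = 1 := by
    rw [neg_mul_neg, ← mul_zpow]
    simp
  obtain ⟨d, hd⟩ := 𝓜.unit_end (tr (𝟙 M))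
  have hd2 := euler 𝓜 hM hd
  rcases Nat.eq_zero_or_pos (𝓜.totalBetti M) with h0 | h0
  · have h1 : IsZero (power M 1) := isZero_tensor (isZero_of_total 𝓜 hq h0)
    rw [h0]
    exact h1.eq_of_src _ _
  · obtain ⟨m, hm⟩ : ∃ m, 𝓜.totalBetti M = m + 1 := ⟨𝓜.totalBetti M - 1, by omega⟩
    rw [hm] at hd2 ⊢
    have h1 : d + (-(-1) ^ c) * ((m : ℚ) + 1) = 0 := by
      rw [hd2]
      push_cast
      ring
    exact idem_zero 𝓜 hq (par_power 𝓜 hM (m + 2)) _ (sym_main hε M (m + 1)).1 (tr_sym hε hd h1)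

end Pool.Agent.N90.AC
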