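import Pool.Agent.N90.AC.Cons
import Mathlib.Order.RelSeries
import Mathlib.CategoryTheory.Subobject.Limits

/-!
# Lengths and nilpotence
-/

set_option autoImplicit false

open CategoryTheory MonoidalCategory Limits

universe w v u

namespace Pool.Agent.N90.AC

variable {K : Type w} [Field K] [CharZero K] {A : Type u} [Category.{v} A] [Abelian A] [Linear ℚ A]
  [MonoidalCategory A] [MonoidalPreadditive A] [BraidedCategory A] [RightRigidCategory A]
  {q : ℕ} (𝓜 : Motives K A q)

attribute [local instance] Motives.additive Motives.finite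

theorem isIso_of_total_mono (hq : 1 < q) {L M : A} (i : L ⟶ M) [Mono i]
    (h : 𝓜.totalBetti M ≤ 𝓜.totalBetti L) : IsIso i := by
  have h1 := total_mono 𝓜 hq i
  have h2 : 𝓜.totalBetti (cokernel i) = 0 := by omega
  have h3 := isZero_of_total 𝓜 hq h2
  have h4 : Epi i := Preadditive.epi_of_isZero_cokernel i h3
  exact isIso_of_mono_of_epi i

theorem isIso_of_total_epi (hq : 1 < q) {M Q : A} (p : M ⟶ Q) [Epi p]
    (h : 𝓜.totalBetti M ≤ 𝓜.totalBetti Q) : IsIso p := by
  have h1 := total_epi 𝓜 hq p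
  have h2 : 𝓜.totalBetti (kernel p) = 0 := by omega
  have h3 := isZero_of_total 𝓜 hq h2
  have h4 : Mono p := Preadditive.mono_of_isZero_kernel p h3
  exact isIso_of_mono_of_epi p

theorem total_le_mono (hq : 1 < q) {L M : A} (i : L ⟶ M) [Mono i] :
    𝓜.totalBetti L ≤ 𝓜.totalBetti M := by
  have h1 := total_mono 𝓜 hq i
  omega

/-- **Every motive has finite length.** -/
theorem length_le (hq : 1 < q) (M : A) (s : LTSeries (Subobject M)) :
    s.length ≤ 𝓜.totalBetti M := by
  let F : Subobject M → ℕ := fun X => 𝓜.totalBetti (X : A)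
  have hF : StrictMono F := by
    intro X Y hXY
    by_contra hcon
    have h1 : IsIso (Subobject.ofLE X Y hXY.le) :=
      isIso_of_total_mono 𝓜 hq _ (not_lt.1 hcon)
    have h2 : Y ≤ X := by
      refine Subobject.le_of_comm (inv (Subobject.ofLE X Y hXY.le)) ?_
      rw [IsIso.inv_comp_eq, Subobject.ofLE_arrow]
    exact hXY.not_ge h2
  have h1 := LTSeries.head_add_length_le_nat (s.map F hF)
  have h2 : (s.map F hF).length = s.length := rfl
  have h3 : (s.map F hF).last = F s.last := rfl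
  have h4 : F s.last ≤ 𝓜.totalBetti M := total_le_mono 𝓜 hq s.last.arrow
  omega

include 𝓜 in
theorem eq_zero_of_st (hq : 1 < q) {N : A} (h : ∀ f : N ⟶ N, tr f = 0) : IsZero N := by
  apply isZero_of_total 𝓜 hq
  rw [total_eq_zero]
  intro n
  obtain ⟨E, hE⟩ := exists_idem 𝓜 hq (fun _ : Unit => N) n
  have h1 : tr (𝓜.frobPoly N E) = (0 : ℚ) • 𝟙 (𝟙_ A) := by
    rw [h, zero_smul]
  have h2 := st_eq 𝓜 h1
  rw [st_single 𝓜 (hE ()).2, (hE ()).1, LinearMap.trace_one, Rat.cast_zero] at h2
  have h3 : ((-1 : K) ^ n) ≠ 0 := zpow_ne_zero _ (by norm_num)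
  have h4 : (Module.finrank K ((𝓜.H n).obj N) : K) = 0 := by
    rcases mul_eq_zero.1 h2.symm with h5 | h5
    · exact absurd h5 h3
    · exact h5
  unfold Motives.betti
  exact_mod_cast h4

include 𝓜 in
/-- If an endomorphism is numerically trivial and bijective on a retract, this is zero. -/
theorem isZero_of_retract (hq : 1 < q) {M I : A} {f : M ⟶ M} (hf : ∀ h : M ⟶ M, tr (f ≫ h) = 0)
    (j : I ⟶ M) (r : M ⟶ I) (g : I ⟶ I) [IsIso g] (hr : j ≫ r = 𝟙 I) (hg : g ≫ j = j ≫ f) :
    IsZero I := by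
  apply eq_zero_of_st 𝓜 hq
  intro w
  have h1 := hf (r ≫ inv g ≫ w ≫ j)
  have h2 : f ≫ r ≫ inv g ≫ w ≫ j = (f ≫ r ≫ inv g ≫ w) ≫ j := by simp
  rw [h2, tr_cyc] at h1
  have h3 : j ≫ f ≫ r ≫ inv g ≫ w = w := by
    rw [← reassoc_of% hg, reassoc_of% hr, IsIso.hom_inv_id_assoc]
  rwa [h3] at h1

theorem pow_comp {M I : A} {f : End M} {g : End I} {j : I ⟶ M} (hg : g ≫ j = j ≫ f) (k : ℕ) :
    (g ^ k : End I) ≫ j = j ≫ (f ^ k : End M) := by
  induction k with
  | zero =>
    rw [pow_zero, pow_zero, End.one_def, End.one_def, Category.id_comp, Category.comp_id]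
  | succ k ih =>
    rw [pow_succ, pow_succ, End.mul_def, End.mul_def, Category.assoc, ih, ← Category.assoc, hg,
      Category.assoc]

/-- **Numerically trivial endomorphisms are nilpotent.** -/
theorem nilpotent (hq : 1 < q) {M : A} (f : End M) (hf : ∀ h : M ⟶ M, tr ((f : M ⟶ M) ≫ h) = 0) :
    f ^ 𝓜.totalBetti M = 0 := by
  -- the images
  let I : ℕ → A := fun k => Abelian.image (f ^ k : End M)
  let a : ∀ k, M ⟶ I k := fun k => Abelian.factorThruImage (f ^ k : End M)
  let j : ∀ k, I k ⟶ M := fun k => Abelian.image.ι (f ^ k : End M)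
  have haj : ∀ k, a k ≫ j k = (f ^ k : End M) := fun k => Abelian.image.fac _
  have hae : ∀ k, Epi (a k) := fun k => by
    change Epi (Abelian.factorThruImage _)
    infer_instance
  have hjm : ∀ k, Mono (j k) := fun k => by
    change Mono (Abelian.image.ι _)
    infer_instance
  have hs1 : ∀ k, (f ^ (k + 1) : End M) = (f ^ k : End M) ≫ (f : M ⟶ M) := fun k => by
    rw [pow_succ', End.mul_def]
  have hs2 : ∀ k, (f ^ (k + 1) : End M) = (f : M ⟶ M) ≫ (f ^ k : End M) := fun k => by
    rw [pow_succ, End.mul_def]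
  have hstep : ∀ k, 𝓜.totalBetti (I (k + 1)) < 𝓜.totalBetti (I k) ∨ IsZero (I k) := by
    intro k
    by_cases hlt : 𝓜.totalBetti (I (k + 1)) < 𝓜.totalBetti (I k)
    · exact Or.inl hlt
    right
    have := hae k
    have := hjm k
    have := hae (k + 1)
    have := hjm (k + 1)
    have he0 : (j k ≫ (f : M ⟶ M)) ≫ cokernel.π (f ^ (k + 1) : End M) = 0 := by
      rw [← cancel_epi (a k), ← Category.assoc, ← Category.assoc, haj, ← hs1,
        cokernel.condition, comp_zero]
    let e : I k ⟶ I (k + 1) := kernel.lift _ (j k ≫ (f : M ⟶ M)) he0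
    have he : e ≫ j (k + 1) = j k ≫ (f : M ⟶ M) := kernel.lift_ι _ _ _
    have ht0 : j (k + 1) ≫ cokernel.π (f ^ k : End M) = 0 := by
      rw [← cancel_epi (a (k + 1)), ← Category.assoc, haj, hs2, Category.assoc,
        cokernel.condition, comp_zero, comp_zero]
    let t : I (k + 1) ⟶ I k := kernel.lift _ (j (k + 1)) ht0
    have ht : t ≫ j k = j (k + 1) := kernel.lift_ι _ _ _
    have hae' : a k ≫ e = a (k + 1) := by
      rw [← cancel_mono (j (k + 1)), Category.assoc, he, ← Category.assoc, haj, haj, hs1]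
    have : Epi e := epi_of_epi_fac hae'
    have : Mono t := mono_of_mono_fac ht
    have : IsIso e := isIso_of_total_epi 𝓜 hq e (not_lt.1 hlt)
    have : IsIso t := isIso_of_total_mono 𝓜 hq t (not_lt.1 hlt)
    let g : End (I k) := (e ≫ t : I k ⟶ I k)
    have hgi : IsIso (e ≫ t) := inferInstance
    have hg : g ≫ j k = j k ≫ (f : M ⟶ M) := by
      change (e ≫ t) ≫ j k = _
      rw [Category.assoc, ht, he]
    have hgu : IsIso (g ^ k : End (I k)) := by
      have h1 : IsUnit g := (isUnit_iff_isIso _).2 hgi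
      exact (isUnit_iff_isIso _).1 (h1.pow k)
    have hja : j k ≫ a k = (g ^ k : End (I k)) := by
      rw [← cancel_mono (j k), Category.assoc, haj, pow_comp hg]
    have hja' : IsIso (j k ≫ a k) := by
      rw [hja]
      exact hgu
    refine isZero_of_retract 𝓜 hq hf (j k) (a k ≫ inv (j k ≫ a k)) (e ≫ t) ?_ hg
    rw [← Category.assoc, IsIso.hom_inv_id]
  by_contra hne
  have hnz : ∀ k ≤ 𝓜.totalBetti M, ¬ IsZero (I k) := by
    intro k hk hz
    apply hne
    have h1 : (f ^ k : End M) = 0 := by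
      rw [← haj k, hz.eq_of_tgt (a k) 0, zero_comp]
    obtain ⟨m, hm⟩ := Nat.exists_eq_add_of_le hk
    rw [hm, pow_add, h1, zero_mul]
  have hdec : ∀ k ≤ 𝓜.totalBetti M, 𝓜.totalBetti (I k) + k ≤ 𝓜.totalBetti M := by
    intro k
    induction k with
    | zero =>
      intro _
      have := hjm 0
      exact total_le_mono 𝓜 hq (j 0)
    | succ k ih =>
      intro hk
      rcases hstep k with h1 | h1
      · have h2 := ih (by omega)
        omega
      · exact absurd h1 (hnz k (by omega))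
  have h1 := hdec _ le_rfl
  exact hnz _ le_rfl (isZero_of_total 𝓜 hq (by omega))

/-- homologically trivial endomorphisms are numerically trivial -/
theorem numTrivial_of_hom {M : A} (f : M ⟶ M) (hf : ∀ i, (𝓜.H i).map f = 0) (h : M ⟶ M) :
    tr (f ≫ h) = 0 := by
  obtain ⟨c, hc⟩ := 𝓜.unit_end (tr (f ≫ h))
  have h1 := 𝓜.trace_formula _ c hc
  have h2 : ∀ i : ℤ, (-1 : K) ^ i * LinearMap.trace K _ ((𝓜.H i).map (f ≫ h)).hom = 0 := by
    intro i
    rw [Functor.map_comp, hf, zero_comp]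
    simp
  rw [finsum_congr h2, finsum_zero] at h1
  have h3 : c = 0 := by exact_mod_cast h1
  rw [hc, h3, zero_smul]

theorem nilpotent_hom (hq : 1 < q) {M : A} (f : End M) (hf : ∀ i, (𝓜.H i).map (f : M ⟶ M) = 0) :
    f ^ 𝓜.totalBetti M = 0 :=
  nilpotent 𝓜 hq f (numTrivial_of_hom 𝓜 f hf)

end Pool.Agent.N90.AC
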