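import Pool.Agent.N90.AC.Trace

/-!
# Partial traces
-/

set_option autoImplicit false

open CategoryTheory MonoidalCategory Limits

universe v u

namespace Pool.Agent.N90.AC

section

variable {A : Type u} [Category.{v} A] [MonoidalCategory A] [SymmetricCategory A]

/-- the trace with respect to an arbitrary dual -/
def trp (M M' : A) [ExactPairing M M'] (f : M ⟶ M) : 𝟙_ A ⟶ 𝟙_ A :=
  η_ M M' ≫ f ▷ M' ≫ (β_ M M').hom ≫ ε_ M M'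

theorem trp_cyc {M M' N N' : A} [ExactPairing M M'] [ExactPairing N N'] (a : M ⟶ N) (b : N ⟶ M) :
    trp M M' (a ≫ b) = trp N N' (b ≫ a) := by
  let _ : HasRightDual M := ⟨M'⟩
  let _ : HasRightDual N := ⟨N'⟩
  let a' : N' ⟶ M' := aᘁ
  have h1 : η_ N N' ≫ N ◁ a' = η_ M M' ≫ a ▷ M' := coevaluation_comp_rightAdjointMate a
  have h0 : a' ▷ M ≫ ε_ M M' = N' ◁ a ≫ ε_ N N' := rightAdjointMate_comp_evaluation a
  have h2 : M ◁ a' ≫ (β_ M M').hom ≫ ε_ M M' = a ▷ N' ≫ (β_ N N').hom ≫ ε_ N N' := by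
    rw [← Category.assoc, BraidedCategory.braiding_naturality_right, Category.assoc, h0,
      ← Category.assoc (a ▷ N'), BraidedCategory.braiding_naturality_left, Category.assoc]
  unfold trp
  simp only [comp_whiskerRight, Category.assoc]
  rw [← reassoc_of% h1, whisker_exchange_assoc, h2]

theorem trp_indep {M M' M'' : A} [ExactPairing M M'] [h : ExactPairing M M''] (f : M ⟶ M) :
    trp M M' f = trp M M'' f := by
  have h1 := trp_cyc (M' := M') (N' := M'') (𝟙 M) f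
  rwa [Category.id_comp, Category.comp_id] at h1

/-- the partial trace of an endomorphism of `X ⊗ M` -/
def Tr (X M M' : A) [ExactPairing M M'] (g : X ⊗ M ⟶ X ⊗ M) : X ⟶ X :=
  (ρ_ X).inv ≫ X ◁ η_ M M' ≫ (α_ X M M').inv ≫ g ▷ M' ≫ (α_ X M M').hom ≫
    X ◁ ((β_ M M').hom ≫ ε_ M M') ≫ (ρ_ X).hom

theorem slide {U V : A} (e : U ⊗ V ⟶ 𝟙_ A) (W : A) :
    (β_ U W).hom ▷ V ≫ (α_ W U V).hom ≫ W ◁ e ≫ (ρ_ W).hom =
      (α_ U W V).hom ≫ U ◁ (β_ W V).hom ≫ (α_ U V W).inv ≫ e ▷ W ≫ (λ_ W).hom := by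
  have h1 : (β_ (U ⊗ V) W).hom ≫ W ◁ e = e ▷ W ≫ (β_ (𝟙_ A) W).hom :=
    (BraidedCategory.braiding_naturality_left e W).symm
  rw [BraidedCategory.braiding_tensor_left_hom] at h1
  simp only [Category.assoc] at h1
  have h2 : e ▷ W ≫ (λ_ W).hom = e ▷ W ≫ (β_ (𝟙_ A) W).hom ≫ (ρ_ W).hom := by
    simp
  rw [h2, ← reassoc_of% h1]
  simp only [← whiskerLeft_comp_assoc, Iso.inv_hom_id_assoc, SymmetricCategory.symmetry,
    MonoidalCategory.whiskerLeft_id, Category.id_comp, Iso.hom_inv_id_assoc]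

/-- The evaluation for a tensor product. -/
theorem ev_tensor (X X' M M' : A) [ExactPairing X X'] [ExactPairing M M'] :
    (β_ (X ⊗ M) (M' ⊗ X')).hom ≫ ε_ (X ⊗ M) (M' ⊗ X') =
      (α_ X M (M' ⊗ X')).hom ≫ X ◁ ((α_ M M' X').inv ≫ ((β_ M M').hom ≫ ε_ M M') ▷ X' ≫
        (λ_ X').hom) ≫ (β_ X X').hom ≫ ε_ X X' := by
  have h1 := slide ((β_ X X').hom ≫ ε_ X X') M'
  have h2 := slide (ε_ M M') X'
  have h3 : ε_ (X ⊗ M) (M' ⊗ X') = (α_ (M' ⊗ X') X M).inv ≫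
      ((α_ M' X' X).hom ≫ M' ◁ ε_ X X' ≫ (ρ_ M').hom) ▷ M ≫ ε_ M M' := by
    change (𝟙 _ ⊗≫ M' ◁ (ε_ X X' ▷ M) ⊗≫ ε_ M M') = _
    monoidal
  rw [h3, BraidedCategory.braiding_tensor_left_hom]
  simp only [Category.assoc, Iso.hom_inv_id_assoc]
  rw [← comp_whiskerRight_assoc, BraidedCategory.braiding_tensor_right_hom X M' X']
  simp only [Category.assoc, Iso.inv_hom_id_assoc]
  have h4 : M' ◁ (β_ X X').hom ≫ M' ◁ ε_ X X' ≫ (ρ_ M').hom =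
      M' ◁ ((β_ X X').hom ≫ ε_ X X') ≫ (ρ_ M').hom := by simp
  rw [h4, h1]
  -- the remaining part
  have h5 : (β_ M (M' ⊗ X')).hom ≫ (β_ M' X').hom ▷ M ≫ (α_ X' M' M).hom ≫ X' ◁ ε_ M M' ≫
      (ρ_ X').hom = (α_ M M' X').inv ≫ ((β_ M M').hom ≫ ε_ M M') ▷ X' ≫ (λ_ X').hom := by
    rw [h2, BraidedCategory.braiding_tensor_right_hom M M' X']
    simp only [Category.assoc, Iso.inv_hom_id_assoc, comp_whiskerRight]
    congr 1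
    congr 1
    rw [← whiskerLeft_comp_assoc, SymmetricCategory.symmetry]
    simp
  rw [← h5]
  have h6 := whisker_exchange ((β_ X X').hom ≫ ε_ X X') (ε_ M M')
  have h7 : ((α_ X M' X').inv ≫ (α_ X M' X').hom ≫ X ◁ (β_ M' X').hom ≫ (α_ X X' M').inv ≫
      ((β_ X X').hom ≫ ε_ X X') ▷ M' ≫ (λ_ M').hom) ▷ M ≫ ε_ M M' =
      (α_ X (M' ⊗ X') M).hom ≫ X ◁ ((β_ M' X').hom ▷ M ≫ (α_ X' M' M).hom) ≫
        (α_ X X' (M' ⊗ M)).inv ≫ (((β_ X X').hom ≫ ε_ X X') ▷ (M' ⊗ M) ≫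
          𝟙_ A ◁ (ε_ M M')) ≫ (λ_ _).hom := by
    monoidal
  rw [h7, ← h6]
  monoidal

theorem trp_tensor (X X' M M' : A) [ExactPairing X X'] [ExactPairing M M'] (g : X ⊗ M ⟶ X ⊗ M) :
    trp (X ⊗ M) (M' ⊗ X') g = trp X X' (Tr X M M' g) := by
  have h1 : η_ (X ⊗ M) (M' ⊗ X') = η_ X X' ≫ ((ρ_ X).inv ≫ X ◁ η_ M M' ≫ (α_ X M M').inv) ▷ X' ≫
      (α_ (X ⊗ M) M' X').hom := by
    change (η_ X X' ⊗≫ (X ◁ η_ M M') ▷ X' ⊗≫ 𝟙 _) = _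
    monoidal
  unfold trp Tr
  rw [ev_tensor, h1]
  have h2 : g ▷ (M' ⊗ X') = (α_ (X ⊗ M) M' X').inv ≫ (g ▷ M') ▷ X' ≫ (α_ (X ⊗ M) M' X').hom := by
    simp
  rw [h2]
  monoidal

/-- the exchange of the last two factors -/
def sw (Y M : A) : (Y ⊗ M) ⊗ M ⟶ (Y ⊗ M) ⊗ M :=
  (α_ Y M M).hom ≫ Y ◁ (β_ M M).hom ≫ (α_ Y M M).inv

theorem sw_sw (Y M : A) : sw Y M ≫ sw Y M = 𝟙 _ := by
  unfold sw
  simp only [Category.assoc, Iso.inv_hom_id_assoc]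
  rw [← whiskerLeft_comp_assoc, SymmetricCategory.symmetry]
  simp

theorem sw_natural {Y Z : A} (f : Y ⟶ Z) (M : A) :
    (f ▷ M) ▷ M ≫ sw Z M = sw Y M ≫ (f ▷ M) ▷ M := by
  unfold sw
  have h1 : (f ▷ M) ▷ M ≫ (α_ Z M M).hom = (α_ Y M M).hom ≫ f ▷ (M ⊗ M) := by simp
  rw [reassoc_of% h1, ← whisker_exchange_assoc]
  simp

/-- The braid relation. -/
theorem sw_braid (Y M : A) :
    sw (Y ⊗ M) M ≫ (sw Y M) ▷ M ≫ sw (Y ⊗ M) M = (sw Y M) ▷ M ≫ sw (Y ⊗ M) M ≫ (sw Y M) ▷ M := by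
  have h1 := BraidedCategory.yang_baxter M M M
  have h2 : sw (Y ⊗ M) M ≫ (sw Y M) ▷ M ≫ sw (Y ⊗ M) M =
      (α_ Y M M).hom ▷ M ≫ (α_ Y (M ⊗ M) M).hom ≫ Y ◁ ((α_ M M M).hom ≫
        (M ◁ (β_ M M).hom ≫ (α_ M M M).inv ≫ (β_ M M).hom ▷ M ≫
      (α_ M M M).hom ≫ M ◁ (β_ M M).hom) ≫ (α_ M M M).inv) ≫ (α_ Y (M ⊗ M) M).inv ≫
        (α_ Y M M).inv ▷ M := by
    unfold sw
    monoidal
  rw [h2, ← h1]
  unfold sw
  monoidal

/-- The partial trace of an exchange. -/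
theorem Tr_sw (Y M M' : A) [ExactPairing M M'] : Tr (Y ⊗ M) M M' (sw Y M) = 𝟙 _ := by
  have h1 := slide ((β_ M M').hom ≫ ε_ M M') M
  have h2 : M ◁ (η_ M M' ≫ (β_ M M').hom) ≫ (α_ M M' M).inv ≫ ((β_ M M').hom ≫ ε_ M M') ▷ M =
      (ρ_ M).hom ≫ (λ_ M).inv := by
    have h3 := (BraidedCategory.exactPairing_swap M M').coevaluation_evaluation'
    rw [← h3]
    congr 3
    exact SymmetricCategory.braiding_swap_eq_inv_braiding M' M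
  have h4 : Tr (Y ⊗ M) M M' (sw Y M) = Y ◁ ((ρ_ M).inv ≫ M ◁ η_ M M' ≫ (α_ M M M').inv ≫
      ((β_ M M).hom ▷ M' ≫ (α_ M M M').hom ≫ M ◁ ((β_ M M').hom ≫ ε_ M M') ≫ (ρ_ M).hom)) := by
    unfold Tr sw
    monoidal
  rw [h4, h1]
  simp only [Iso.inv_hom_id_assoc]
  rw [← whiskerLeft_comp_assoc, reassoc_of% h2]
  simp

theorem Tr_comp_left (X M M' : A) [ExactPairing M M'] (f : X ⟶ X) (g : X ⊗ M ⟶ X ⊗ M) :
    Tr X M M' (f ▷ M ≫ g) = f ≫ Tr X M M' g := by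
  unfold Tr
  have h1 : X ◁ η_ M M' ≫ (α_ X M M').inv ≫ (f ▷ M) ▷ M' =
      f ▷ 𝟙_ A ≫ X ◁ η_ M M' ≫ (α_ X M M').inv := by
    rw [← associator_inv_naturality_left, whisker_exchange_assoc]
  simp only [comp_whiskerRight, Category.assoc]
  rw [reassoc_of% h1]
  simp

theorem Tr_comp_right (X M M' : A) [ExactPairing M M'] (f : X ⟶ X) (g : X ⊗ M ⟶ X ⊗ M) :
    Tr X M M' (g ≫ f ▷ M) = Tr X M M' g ≫ f := by
  unfold Tr
  have h1 : (f ▷ M) ▷ M' ≫ (α_ X M M').hom ≫ X ◁ ((β_ M M').hom ≫ ε_ M M') ≫ (ρ_ X).hom =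
      (α_ X M M').hom ≫ X ◁ ((β_ M M').hom ≫ ε_ M M') ≫ (ρ_ X).hom ≫ f := by
    rw [← rightUnitor_naturality, whisker_exchange_assoc]
    simp
  simp only [comp_whiskerRight, Category.assoc]
  rw [h1]

theorem Tr_id (X M M' : A) [ExactPairing M M'] :
    Tr X M M' (𝟙 _) = (ρ_ X).inv ≫ X ◁ (trp M M' (𝟙 M)) ≫ (ρ_ X).hom := by
  unfold Tr trp
  simp

end

end Pool.Agent.N90.AC
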