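import Mathlib.Algebra.Algebra.Basic
import Mathlib.Tactic.NoncommRing
import Mathlib.Tactic.Ring
import Mathlib.Tactic.LinearCombination
import Mathlib.Tactic.Module

/-!
# Antisymmetrisers: the algebra
-/

set_option autoImplicit false

namespace Pool.Agent.N90.AC

/-- The symmetriser (`ε = 1`) or antisymmetriser (`ε = -1`) absorbs the last exchange. -/
theorem absorb {R : Type*} [Ring R] [Algebra ℚ R] {s s' B B' : R} {ε n : ℚ} (hε : ε * ε = 1)
    (hn : n + 1 ≠ 0) (hs : s * s = 1) (hsB : s * B' = B' * s) (hbr : s * s' * s = s' * s * s')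
    (hs'B : s' * B = ε • B) (hBB' : B * B' = B)
    (hB : (n + 1) • B = B' + (ε * n) • (B' * s' * B')) :
    s * (B + (ε * (n + 1)) • (B * s * B)) = ε • (B + (ε * (n + 1)) • (B * s * B)) := by
  have e1 : B * s * B' = B * s := by rw [mul_assoc, hsB, ← mul_assoc, hBB']
  have H1 : (n + 1) • (B * s * B) = B * s + (ε * n) • (B * s * s' * B') := by
    rw [← mul_smul_comm, hB, mul_add, e1, mul_smul_comm, ← mul_assoc, ← mul_assoc, e1]
  have e2 : (n + 1) • (B * s) = s * B' + (ε * n) • (B' * s' * s * B') := by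
    rw [← smul_mul_assoc, hB, add_mul, smul_mul_assoc, ← hsB, mul_assoc (B' * s'), ← hsB,
      ← mul_assoc]
  have e3 : (n + 1) • (B * s * s' * B') = s * B' * s' * B' +
      (ε * n) • (B' * s' * s * (B' * s' * B')) := by
    have h1 : (n + 1) • (B * s * s' * B') = ((n + 1) • (B * s)) * (s' * B') := by
      rw [smul_mul_assoc]
      simp only [mul_assoc]
    rw [h1, e2, add_mul, smul_mul_assoc]
    simp only [mul_assoc]
  have e4 : (ε * n) • (B' * s' * s * (B' * s' * B')) =
      (n + 1) • (B' * s' * s * B) - B' * s' * s * B' := by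
    have h2 : (ε * n) • (B' * s' * B') = (n + 1) • B - B' := by
      rw [hB]
      abel
    rw [← mul_smul_comm (ε * n) (B' * s' * s), h2, mul_sub, mul_smul_comm]
  have e5 : (n + 1) • (s * B) = s * B' + (ε * n) • (s * B' * s' * B') := by
    rw [← mul_smul_comm, hB, mul_add, mul_smul_comm]
    simp only [mul_assoc]
  have H2 : (n + 1) • ((n + 1) • (B * s * B)) =
      (n + 1) • (s * B + (ε * n) • (B' * s' * s * B)) := by
    linear_combination (norm := module) (n + 1) • H1 + e2 + (ε * n) • e3 + (ε * n) • e4 - e5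
  have H3 : (n + 1) • (B * s * B) = s * B + (ε * n) • (B' * s' * s * B) :=
    smul_right_injective R hn H2
  have e6 : s * (B' * s' * s * B) = ε • (B' * s' * s * B) := by
    have h1 : s * (B' * s' * s * B) = B' * (s * s' * s) * B := by
      rw [← mul_assoc, ← mul_assoc, ← mul_assoc, hsB]
      simp only [mul_assoc]
    rw [h1, hbr]
    have h2 : B' * (s' * s * s') * B = B' * s' * s * (s' * B) := by simp only [mul_assoc]
    rw [h2, hs'B, mul_smul_comm]
  have e7 : s * (s * B) = B := by rw [← mul_assoc, hs, one_mul]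
  rw [mul_smul, H3, smul_add, mul_add, mul_add, mul_smul_comm, mul_smul_comm, mul_smul_comm, e6, e7]
  have hε2 : ∀ x : R, ε • (ε • x) = x := fun x => by rw [smul_smul, hε, one_smul]
  have h8 : (ε * n) • (ε • (B' * s' * s * B)) = n • (B' * s' * s * B) := by
    rw [smul_smul, mul_comm ε n, mul_assoc, hε, mul_one]
  rw [h8, smul_add, smul_add, hε2, hε2]
  module

end Pool.Agent.N90.AC
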