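import Pool.Agent.N90.AC.Defs

/-!
# Symmetrisers and antisymmetrisers
-/

set_option autoImplicit false

open CategoryTheory MonoidalCategory Limits

universe w v u

namespace Pool.Agent.N90.AC

variable {A : Type u} [Category.{v} A] [Abelian A] [Linear ℚ A] [MonoidalCategory A]
  [MonoidalPreadditive A] [SymmetricCategory A]

/-- The symmetriser (`ε = 1`) and the antisymmetriser (`ε = -1`) of the tensor power of `M` with the
exponent `n`, that is the mean value of the endomorphisms `ε(σ) σ`, where `σ` are the permutations of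
the factors, and `ε(σ) = 1` or `ε(σ)` is the sign of `σ`. Let `b` be its tensor product with the
identity of `M`, and let `s` be the exchange of the last two factors. The next symmetriser is
`(b + ε n b s b) / (n + 1)`. -/
noncomputable def sym (ε : ℚ) (M : A) : ∀ n : ℕ, End (power M n)
  | 0 => 1
  | 1 => 1
  | n + 2 =>
    let b : End (power M (n + 2)) := (sym ε M (n + 1) : power M (n + 1) ⟶ power M (n + 1)) ▷ M
    let s : End (power M (n + 2)) :=
      (α_ (power M n) M M).hom ≫ power M n ◁ (β_ M M).hom ≫ (α_ (power M n) M M).inv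
    ((n : ℚ) + 2)⁻¹ • (b + (ε * ((n : ℚ) + 1)) • (b * s * b))

variable {K : Type w} [Field K] [CharZero K] [RightRigidCategory A] {q : ℕ} (𝓜 : Motives K A q)

/-- `M` is the direct sum of motives `P` and `N`, such that the exterior power of `P` with the
exponent `b(P) + 1` and the symmetric power of `N` with the exponent `b(N) + 1` are zero, where `b`
is the sum of the Betti numbers. In particular `M` is finite-dimensional in the sense of Kimura and
O'Sullivan. -/
def Motives.KimuraFinite (M : A) : Prop :=
  ∃ (P N : A) (i : P ⟶ M) (r : M ⟶ P) (j : N ⟶ M) (t : M ⟶ N),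
    i ≫ r = 𝟙 P ∧ j ≫ t = 𝟙 N ∧ r ≫ i + t ≫ j = 𝟙 M ∧
    sym (-1) P (𝓜.totalBetti P + 1) = 0 ∧ sym 1 N (𝓜.totalBetti N + 1) = 0

end Pool.Agent.N90.AC
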