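import Pool.Agent.N90.AC.PTr
import Pool.Agent.N90.AC.Ring
import Pool.Agent.N90.AC.SymDefs

/-!
# Symmetrisers and antisymmetrisers are idempotent
-/

set_option autoImplicit false

open CategoryTheory MonoidalCategory Limits

universe v u

namespace Pool.Agent.N90.AC

variable {A : Type u} [Category.{v} A] [Abelian A] [Linear ℚ A] [MonoidalCategory A]
  [MonoidalPreadditive A] [SymmetricCategory A]

/-- tensoring with `M` -/
def wr (X M : A) : End X →+* End (X ⊗ M) where
  toFun f := (f : X ⟶ X) ▷ M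
  map_one' := by
    change 𝟙 X ▷ M = 𝟙 (X ⊗ M)
    simp
  map_mul' f g := by
    change (g ≫ f) ▷ M = g ▷ M ≫ f ▷ M
    simp
  map_zero' := MonoidalPreadditive.zero_whiskerRight
  map_add' f g := MonoidalPreadditive.add_whiskerRight (f : X ⟶ X) g

theorem wr_smul (X M : A) (c : ℚ) (f : End X) : wr X M (c • f) = c • wr X M f :=
  map_rat_smul (wr X M) c f

/-- tensoring with `M` -/
def wp (M : A) (n : ℕ) : End (power M n) →+* End (power M (n + 1)) := wr (power M n) M

theorem wp_smul (M : A) (n : ℕ) (c : ℚ) (f : End (power M n)) :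
    wp M n (c • f) = c • wp M n f := map_rat_smul (wp M n) c f

/-- the exchange of the last two factors, as an element of the ring of endomorphisms -/
def swp (M : A) (n : ℕ) : End (power M (n + 2)) := sw (power M n) M

theorem sym_succ (ε : ℚ) (M : A) (n : ℕ) : sym ε M (n + 2) = ((n : ℚ) + 2)⁻¹ •
    (wp M (n + 1) (sym ε M (n + 1)) + (ε * ((n : ℚ) + 1)) •
      (wp M (n + 1) (sym ε M (n + 1)) * swp M n * wp M (n + 1) (sym ε M (n + 1)))) := rfl

theorem sym_one (ε : ℚ) (M : A) : sym ε M 1 = 1 := rfl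

theorem sym_main {ε : ℚ} (hε : ε * ε = 1) (M : A) (n : ℕ) :
    sym ε M (n + 1) * sym ε M (n + 1) = sym ε M (n + 1) ∧
      swp M n * sym ε M (n + 2) = ε • sym ε M (n + 2) := by
  induction n with
  | zero =>
    refine ⟨by rw [sym_one, mul_one], ?_⟩
    have h1 : swp M 0 * swp M 0 = 1 := sw_sw (power M 0) M
    rw [sym_succ, sym_one, map_one, one_mul, mul_one, mul_smul_comm, smul_comm ε]
    congr 1
    rw [mul_add, mul_one, mul_smul_comm, h1, smul_add, smul_smul]
    simp only [Nat.cast_zero, zero_add, mul_one, hε, one_smul]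
    exact add_comm _ _
  | succ n ih =>
    obtain ⟨h1, h2⟩ := ih
    set a := sym ε M (n + 1) with ha
    set a' := sym ε M (n + 2) with ha'
    have hc : ((n : ℚ) + 2) ≠ 0 := by positivity
    have h3 : ((n : ℚ) + 2) • a' = wp M (n + 1) a + (ε * ((n : ℚ) + 1)) • (wp M (n + 1) a * swp M n * wp M (n + 1) a) := by
      rw [ha', sym_succ, smul_inv_smul₀ hc]
    have hb : wp M (n + 1) a * wp M (n + 1) a = wp M (n + 1) a := by rw [← map_mul, h1]
    have h4 : wp M (n + 1) a * a' = a' := by
      apply smul_right_injective _ hc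
      change ((n : ℚ) + 2) • (_ * _) = ((n : ℚ) + 2) • a'
      rw [← mul_smul_comm, h3, mul_add, mul_smul_comm, hb, ← mul_assoc, ← mul_assoc, hb]
    have h5 : a' * wp M (n + 1) a = a' := by
      apply smul_right_injective _ hc
      change ((n : ℚ) + 2) • (_ * _) = ((n : ℚ) + 2) • a'
      rw [← smul_mul_assoc, h3, add_mul, smul_mul_assoc, hb, mul_assoc _ (wp M (n + 1) a) (wp M (n + 1) a), hb]
    have h6 : a' * a' = a' := by
      apply smul_right_injective _ hc
      change ((n : ℚ) + 2) • (_ * _) = ((n : ℚ) + 2) • a'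
      have h7 : ε * ((n : ℚ) + 1) * ε = (n : ℚ) + 1 := by
        linear_combination ((n : ℚ) + 1) * hε
      have h8 : (((n : ℚ) + 2) • a') * a' = a' + ((n : ℚ) + 1) • a' := by
        rw [h3, add_mul, smul_mul_assoc, h4, mul_assoc _ (wp M (n + 1) a) a', h4,
          mul_assoc, h2, mul_smul_comm, h4, smul_smul, h7]
      rw [← smul_mul_assoc, h8]
      module
    refine ⟨h6, ?_⟩
    have h8 := absorb (R := End (power M (n + 3))) (s := swp M (n + 1)) (s' := wp M (n + 2) (swp M n))
      (B := wp M (n + 2) a') (B' := wp M (n + 2) (wp M (n + 1) a)) (ε := ε) (n := (n : ℚ) + 1) hε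
      (by positivity) (sw_sw (power M (n + 1)) M)
      (sw_natural a M) (sw_braid (power M n) M)
      (by rw [← map_mul, h2, wp_smul]) (by rw [← map_mul, h5])
      (by
        rw [← wp_smul, show (n : ℚ) + 1 + 1 = (n : ℚ) + 2 by ring, h3, map_add, wp_smul, map_mul,
          map_mul])
    rw [sym_succ, mul_smul_comm, smul_comm ε]
    congr 1
    have h9 : (((n + 1 : ℕ) : ℚ) + 1) = (n : ℚ) + 1 + 1 := by push_cast; ring
    rw [h9]
    exact h8

end Pool.Agent.N90.AC
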