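import Mathlib.CategoryTheory.Monoidal.Rigid.Braided
import Mathlib.CategoryTheory.Monoidal.Preadditive
import Mathlib.CategoryTheory.Abelian.Basic
import Mathlib.Algebra.Homology.ShortComplex.Abelian
import Mathlib.Algebra.Homology.ShortComplex.Exact

/-!
# Traces in abelian rigid tensor categories are additive
-/

set_option autoImplicit false

open CategoryTheory MonoidalCategory Limits

universe v u

namespace Pool.Agent.N90.AC

section

variable {A : Type u} [Category.{v} A] [MonoidalCategory A] [BraidedCategory A]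
  [RightRigidCategory A]

/-- The trace of an endomorphism of an object with a dual. -/
def tr {M : A} (f : M ⟶ M) : 𝟙_ A ⟶ 𝟙_ A :=
  η_ M Mᘁ ≫ f ▷ Mᘁ ≫ (β_ M Mᘁ).hom ≫ ε_ M Mᘁ

/-- the partial trace -/
def ptr {E M : A} (g : E ⊗ M ⟶ M) : E ⟶ 𝟙_ A :=
  (ρ_ E).inv ≫ E ◁ η_ M Mᘁ ≫ (α_ E M Mᘁ).inv ≫ g ▷ Mᘁ ≫ (β_ M Mᘁ).hom ≫ ε_ M Mᘁ

theorem ptr_unit {E M : A} (e : E ⟶ 𝟙_ A) (f : M ⟶ M) :
    ptr (e ▷ M ≫ (λ_ M).hom ≫ f) = e ≫ tr f := by
  unfold ptr tr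
  have h1 : (ρ_ E).inv ≫ E ◁ η_ M Mᘁ ≫ (α_ E M Mᘁ).inv ≫ (e ▷ M) ▷ Mᘁ =
      e ≫ η_ M Mᘁ ≫ (λ_ (M ⊗ Mᘁ)).inv ≫ (α_ (𝟙_ A) M Mᘁ).inv := by
    rw [← associator_inv_naturality_left, whisker_exchange_assoc]
    simp [unitors_equal]
  simp only [comp_whiskerRight, Category.assoc]
  rw [reassoc_of% h1]
  simp

theorem trd {M N : A} (a : M ⟶ N) :
    M ◁ aᘁ ≫ (β_ M Mᘁ).hom ≫ ε_ M Mᘁ = a ▷ Nᘁ ≫ (β_ N Nᘁ).hom ≫ ε_ N Nᘁ := by
  rw [← Category.assoc, BraidedCategory.braiding_naturality_right, Category.assoc,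
    rightAdjointMate_comp_evaluation, ← Category.assoc (a ▷ Nᘁ),
    BraidedCategory.braiding_naturality_left, Category.assoc]

theorem ptr_cyc {E M N : A} (a : M ⟶ N) (b : E ⊗ N ⟶ M) :
    ptr (E ◁ a ≫ b) = ptr (b ≫ a) := by
  unfold ptr
  have h1 : E ◁ η_ M Mᘁ ≫ (α_ E M Mᘁ).inv ≫ (E ◁ a) ▷ Mᘁ =
      E ◁ η_ N Nᘁ ≫ (α_ E N Nᘁ).inv ≫ (E ⊗ N) ◁ aᘁ := by
    rw [← associator_inv_naturality_middle, ← associator_inv_naturality_right,
      ← whiskerLeft_comp_assoc, ← whiskerLeft_comp_assoc, coevaluation_comp_rightAdjointMate]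
  simp only [comp_whiskerRight, Category.assoc]
  rw [reassoc_of% h1, whisker_exchange_assoc, trd]

theorem tr_cyc {M N : A} (a : M ⟶ N) (b : N ⟶ M) : tr (a ≫ b) = tr (b ≫ a) := by
  unfold tr
  simp only [comp_whiskerRight, Category.assoc]
  rw [← coevaluation_comp_rightAdjointMate_assoc, whisker_exchange_assoc, trd]

end

section

variable {A : Type u} [Category.{v} A] [Abelian A] [MonoidalCategory A] [MonoidalPreadditive A]
  [BraidedCategory A] [RightRigidCategory A]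

theorem ptr_add {E M : A} (g h : E ⊗ M ⟶ M) : ptr (g + h) = ptr g + ptr h := by
  unfold ptr
  simp [MonoidalPreadditive.add_whiskerRight]

theorem tr_add {M : A} (g h : M ⟶ M) : tr (g + h) = tr g + tr h := by
  unfold tr
  simp [MonoidalPreadditive.add_whiskerRight]

instance epi_whiskerRight {M N : A} (p : M ⟶ N) [Epi p] (Z : A) : Epi (p ▷ Z) := by
  have h1 : (tensorRight Z).IsLeftAdjoint := (tensorRightAdjunction Z Zᘁ).isLeftAdjoint
  exact inferInstanceAs (Epi ((tensorRight Z).map p))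

instance mono_whiskerRight {M N : A} (p : M ⟶ N) [Mono p] (Z : A) : Mono (p ▷ Z) := by
  let _ : ExactPairing Zᘁ Z := BraidedCategory.exactPairing_swap Z Zᘁ
  have h1 : (tensorRight Z).IsRightAdjoint := (tensorRightAdjunction Zᘁ Z).isRightAdjoint
  exact inferInstanceAs (Mono ((tensorRight Z).map p))

instance epi_whiskerLeft {M N : A} (p : M ⟶ N) [Epi p] (Z : A) : Epi (Z ◁ p) := by
  have h1 : Z ◁ p = (β_ Z M).hom ≫ p ▷ Z ≫ (β_ Z N).inv := by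
    rw [← BraidedCategory.braiding_naturality_right_assoc]
    simp
  rw [h1]
  infer_instance

/-- After a pull-back to an object which covers the unit, epimorphisms split. -/
theorem exists_split {M Q : A} (p : M ⟶ Q) [Epi p] :
    ∃ (E : A) (e : E ⟶ 𝟙_ A) (_ : Epi e) (s : E ⊗ Q ⟶ M), s ≫ p = e ▷ Q ≫ (λ_ Q).hom := by
  refine ⟨pullback (p ▷ Qᘁ) (η_ Q Qᘁ), pullback.snd _ _, inferInstance,
    pullback.fst (p ▷ Qᘁ) (η_ Q Qᘁ) ▷ Q ≫ (α_ M Qᘁ Q).hom ≫ M ◁ ε_ Q Qᘁ ≫ (ρ_ M).hom, ?_⟩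
  have h1 : (α_ M Qᘁ Q).hom ≫ M ◁ ε_ Q Qᘁ ≫ (ρ_ M).hom ≫ p =
      (p ▷ Qᘁ) ▷ Q ≫ (α_ Q Qᘁ Q).hom ≫ Q ◁ ε_ Q Qᘁ ≫ (ρ_ Q).hom := by
    rw [← rightUnitor_naturality, whisker_exchange_assoc]
    simp
  simp only [Category.assoc]
  rw [h1, ← comp_whiskerRight_assoc, pullback.condition, comp_whiskerRight_assoc,
    ExactPairing.evaluation_coevaluation_assoc]
  simp

/-- **The trace is additive.** -/
theorem tr_exact {L M Q : A} (i : L ⟶ M) (p : M ⟶ Q) [Mono i] [Epi p] (w : i ≫ p = 0)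
    (hex : (ShortComplex.mk i p w).Exact) (f : M ⟶ M) (f' : L ⟶ L) (f'' : Q ⟶ Q)
    (h' : i ≫ f = f' ≫ i) (h'' : f ≫ p = p ≫ f'') : tr f = tr f' + tr f'' := by
  obtain ⟨E, e, he, s, hs⟩ := exists_split p
  let h : E ⊗ Q ⟶ M := E ◁ f'' ≫ s
  have hh : h ≫ p = e ▷ Q ≫ (λ_ Q).hom ≫ f'' := by
    simp only [h, Category.assoc]
    rw [hs, whisker_exchange_assoc]
    simp
  have h1 : (e ▷ M ≫ (λ_ M).hom ≫ f - E ◁ p ≫ h) ≫ p = 0 := by
    rw [Preadditive.sub_comp, Category.assoc, Category.assoc, Category.assoc, h'', hh,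
      ← leftUnitor_naturality_assoc, ← whisker_exchange_assoc]
    simp
  let g : E ⊗ M ⟶ L := hex.lift _ h1
  have hg : g ≫ i = e ▷ M ≫ (λ_ M).hom ≫ f - E ◁ p ≫ h := hex.lift_f _ h1
  have h2 : e ▷ M ≫ (λ_ M).hom ≫ f = g ≫ i + E ◁ p ≫ h := by
    rw [hg]
    abel
  have h3 : E ◁ i ≫ g = e ▷ L ≫ (λ_ L).hom ≫ f' := by
    rw [← cancel_mono i, Category.assoc, hg, Preadditive.comp_sub, ← whiskerLeft_comp_assoc, w]
    simp only [Category.assoc, ← h']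
    rw [whisker_exchange_assoc]
    simp
  have h4 : h ≫ p = e ▷ Q ≫ (λ_ Q).hom ≫ f'' := hh
  have h5 : e ≫ tr f = e ≫ (tr f' + tr f'') := by
    rw [← ptr_unit, h2, ptr_add, ← ptr_cyc i g, h3, ptr_cyc p h, h4, ptr_unit, ptr_unit,
      Preadditive.comp_add]
  exact (cancel_epi e).1 h5

end

end Pool.Agent.N90.AC
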